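import Pool.Agent.helper616_TS.Defs
import Pool.Agent.helper616_TM.Defs

/-!
# Project TN (helper616): definitions
-/

set_option autoImplicit false

open Finset MeasureTheory Filter Topology
open Pool.Agent.helper616_TS (LogBdd)
open Pool.Agent.helper616_TM (val Q nodes)

namespace Pool.Agent.helper616_TN

/-- small in almost all short intervals -/
def Var13 (h : ℕ → ℝ) : Prop := ∀ θ : ℝ, 1 / 3 < θ → ∀ A : ℕ, ∃ X₀ : ℕ, ∀ X : ℕ, X₀ ≤ X → ∀ W : ℕ, (X : ℝ) ^ θ ≤ W → W ≤ X →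
    ∑ u ∈ range X, (∑ s ∈ Icc 1 W, h (u + s)) ^ 2 ≤ X * (W : ℝ) ^ 2 / (Real.log X) ^ A

/-- two arguments which are not too close -/
def Far (D R p q : ℕ) : Prop := Nat.sqrt R ≤ p ∧ p < R ∧ Nat.sqrt R ≤ q ∧ q < R ∧ (R : ℝ) / (Real.log R) ^ D ≤ |(p : ℝ) - q|

/-- distinct shifts, at most a power of the logarithm -/
def Sh (E R : ℕ) {k : ℕ} (s : Fin k → ℕ) : Prop := Function.Injective s ∧ ∀ i, (s i : ℝ) ≤ (Real.log R) ^ E

/-- the product of the functions `b i` at the values at `n + s i` -/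
noncomputable def tupB {m k : ℕ} (b : Fin k → ℕ → ℝ) (s : Fin k → ℕ) (n : ℕ) (ω : Fin m → ℝ) : ℝ := ∏ i, b i ⌊val ω (n + s i)⌋₊

end Pool.Agent.helper616_TN
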