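import Pool.Agent.helper616_TN.Defs
import Pool.Agent.helper616_TM.TM4

/-!
# Project TN (helper616): directions for two clusters of arguments, uniformly
-/

set_option autoImplicit false
set_option maxHeartbeats 4000000

open Finset MeasureTheory Filter Topology
open Pool.Agent.helper616_RP (th)
open Pool.Agent.helper616_TS (LogBdd)
open Pool.Agent.helper616_TM (val Q nodes)

namespace Pool.Agent.helper616_TN

open Pool.Agent.helper616_TM.TM4 (direction)

namespace TN1


private theorem prod_one {r : ℕ} (g : Fin r → ℝ) (hg : ∀ i, 0 ≤ g i) (j : Fin r) (A : ℝ)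
    (hA : ∀ i, i ≠ j → g i ≤ A) : ∏ i, (if i = j then 1 else g i) ≤ A ^ (r - 1) := by
  classical
  rw [← Finset.prod_erase_mul univ _ (mem_univ j), if_pos rfl, mul_one]
  have h1 : ∏ i ∈ univ.erase j, (if i = j then 1 else g i) ≤ ∏ _i ∈ univ.erase j, A := by
    refine Finset.prod_le_prod (fun i _ => ?_) (fun i hi => ?_)
    · split_ifs
      · exact zero_le_one
      · exact hg i
    · rw [Finset.mem_erase] at hi
      rw [if_neg hi.1]
      exact hA i hi.1
  rw [Finset.prod_const, Finset.card_erase_of_mem (mem_univ j), Finset.card_univ, Fintype.card_fin] at h1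
  exact h1

private theorem prod_all {r : ℕ} (g : Fin r → ℝ) (hg : ∀ i, 0 ≤ g i) (A : ℝ)
    (hA : ∀ i, g i ≤ A) : ∏ i, g i ≤ A ^ r := by
  have h1 := Finset.prod_le_prod (s := univ) (f := g) (g := fun _ => A) (fun i _ => hg i) (fun i _ => hA i)
  rwa [Finset.prod_const, Finset.card_univ, Fintype.card_fin] at h1

private theorem prod_bd {r : ℕ} (f : Fin (r + r) → ℝ) (hf : ∀ i, 0 ≤ f i) (j : Fin (r + r)) (A B : ℝ)
    (hA0 : 0 ≤ A) (hB0 : 0 ≤ B)
    (hA : ∀ i, i ≠ j → ((i : ℕ) < r ↔ (j : ℕ) < r) → f i ≤ A)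
    (hB : ∀ i : Fin (r + r), ¬ ((i : ℕ) < r ↔ (j : ℕ) < r) → f i ≤ B) :
    ∏ i ∈ univ.erase j, f i ≤ A ^ (r - 1) * B ^ r := by
  classical
  have h1 : ∏ i ∈ univ.erase j, f i = ∏ i, (if i = j then 1 else f i) := by
    rw [← Finset.prod_erase_mul univ (fun i => if i = j then 1 else f i) (mem_univ j), if_pos rfl, mul_one]
    refine Finset.prod_congr rfl fun i hi => ?_
    rw [if_neg (Finset.ne_of_mem_erase hi)]
  rw [h1, Fin.prod_univ_add]
  induction j using Fin.addCases with
  | left j0 =>
    have e1 : ∏ i : Fin r, (if Fin.castAdd r i = Fin.castAdd r j0 then 1 else f (Fin.castAdd r i)) ≤ A ^ (r - 1) := by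
      have := prod_one (fun i => f (Fin.castAdd r i)) (fun i => hf _) j0 A (fun i hi =>
        hA _ (fun h => hi (Fin.castAdd_injective r r h)) (by simp))
      refine le_trans (le_of_eq (Finset.prod_congr rfl fun i _ => ?_)) this
      simp
    have e2 : ∏ i : Fin r, (if Fin.natAdd r i = Fin.castAdd r j0 then 1 else f (Fin.natAdd r i)) ≤ B ^ r := by
      have := prod_all (fun i => f (Fin.natAdd r i)) (fun i => hf _) B (fun i => hB _ (by simp))
      refine le_trans (le_of_eq (Finset.prod_congr rfl fun i _ => ?_)) this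
      rw [if_neg]
      intro h
      have := congrArg Fin.val h
      simp at this
      omega
    exact mul_le_mul e1 e2 (Finset.prod_nonneg fun i _ => by split_ifs; exacts [zero_le_one, hf _]) (by positivity)
  | right j0 =>
    have e1 : ∏ i : Fin r, (if Fin.natAdd r i = Fin.natAdd r j0 then 1 else f (Fin.natAdd r i)) ≤ A ^ (r - 1) := by
      have := prod_one (fun i => f (Fin.natAdd r i)) (fun i => hf _) j0 A (fun i hi =>
        hA _ (fun h => hi (Fin.natAdd_injective r r h)) (by simp))
      refine le_trans (le_of_eq (Finset.prod_congr rfl fun i _ => ?_)) this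
      simp
    have e2 : ∏ i : Fin r, (if Fin.castAdd r i = Fin.natAdd r j0 then 1 else f (Fin.castAdd r i)) ≤ B ^ r := by
      have := prod_all (fun i => f (Fin.castAdd r i)) (fun i => hf _) B (fun i => hB _ (by simp))
      refine le_trans (le_of_eq (Finset.prod_congr rfl fun i _ => ?_)) this
      rw [if_neg]
      intro h
      have := congrArg Fin.val h
      simp at this
      omega
    rw [mul_comm]
    exact mul_le_mul e1 e2 (Finset.prod_nonneg fun i _ => by split_ifs; exacts [zero_le_one, hf _]) (by positivity)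

private theorem same_bd (x y : ℝ) (hx : 1 ≤ x) (h1 : 1 ≤ |x - y|) (h2 : y ≤ 2 * x) (hy : 0 ≤ y) :
    2 * y / |x - y| ≤ 4 * x := by
  rw [div_le_iff₀ (by linarith)]
  nlinarith

private theorem other_bd (x y R L S : ℝ) (hR : 0 < R) (hL : 0 < L) (h1 : R / L - S ≤ |x - y|)
    (h2 : (2 * S + 1) * L ≤ R) (h3 : y ≤ 2 * R) :
    2 * y / |x - y| ≤ 8 * L := by
  have h4 : 2 * S + 1 ≤ R / L := by rw [le_div_iff₀ hL]; exact h2
  have h5 : R / L / 2 ≤ |x - y| := by linarith
  have h6 : 0 < R / L := by positivity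
  rw [div_le_iff₀ (by linarith)]
  have h7 : 8 * L * (R / L / 2) = 4 * R := by field_simp; ring
  have h8 : 8 * L * (R / L / 2) ≤ 8 * L * |x - y| := mul_le_mul_of_nonneg_left h5 (by positivity)
  linarith

theorem clusterDirU (r a : ℕ) (hr : 1 ≤ r) (E D : ℕ) :
    ∃ K : ℝ, 0 < K ∧ ∀ᶠ R : ℕ in atTop, ∀ s : Fin r → ℕ, Sh E R s → ∀ p q : ℕ, Far D R p q → ∀ j : Fin (r + r),
      ∃ h : Fin (a + (r + r)) → ℝ, ∑ k, h k * (nodes s p q j : ℝ) ^ (k : ℕ) = 1 ∧
        (∀ i, i ≠ j → ∑ k, h k * (nodes s p q i : ℝ) ^ (k : ℕ) = 0) ∧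
        ∀ k, |h k| * (nodes s p q j : ℝ) ^ a ≤ K * (nodes s p q j : ℝ) ^ (r - 1) * (Real.log R) ^ (r * (D + 1)) := by
  classical
  refine ⟨4 ^ (r - 1) * 8 ^ r, by positivity, ?_⟩
  have hlog : Tendsto (fun N : ℕ => Real.log N) atTop atTop :=
    Real.tendsto_log_atTop.comp tendsto_natCast_atTop_atTop
  have hbig : ∀ᶠ R : ℕ in atTop, 3 * (Real.log R) ^ (E + D) ≤ R := by
    have h1 := (Real.isLittleO_pow_log_id_atTop (n := E + D)).bound (c := 1 / 3) (by positivity)
    filter_upwards [tendsto_natCast_atTop_atTop.eventually h1, hlog.eventually_ge_atTop 0,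
      eventually_ge_atTop 1] with R h2 h3 h4
    have hR : (0 : ℝ) ≤ R := Nat.cast_nonneg R
    rw [Real.norm_of_nonneg (by positivity), id, Real.norm_of_nonneg hR, div_mul_eq_mul_div, one_mul,
      le_div_iff₀ (by positivity)] at h2
    linarith
  have hbig2 : ∀ᶠ R : ℕ in atTop, (Real.log R) ^ (E + E) ≤ R := by
    have h1 := (Real.isLittleO_pow_log_id_atTop (n := E + E)).bound (c := 1) (by positivity)
    filter_upwards [tendsto_natCast_atTop_atTop.eventually h1, hlog.eventually_ge_atTop 0,
      eventually_ge_atTop 1] with R h2 h3 h4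
    have hR : (0 : ℝ) ≤ R := Nat.cast_nonneg R
    rw [Real.norm_of_nonneg (by positivity), id, Real.norm_of_nonneg hR, one_mul] at h2
    exact h2
  filter_upwards [hbig, hbig2, hlog.eventually_ge_atTop 1, eventually_ge_atTop 1] with R hR0 hRb hR2 hR3
  intro s hsh p q hfar j
  obtain ⟨hs, hsS⟩ := hsh
  obtain ⟨hp1, hp2, hq1, hq2, hpq⟩ := hfar
  obtain ⟨S, hSdef⟩ : ∃ S : ℝ, S = (Real.log R) ^ E := ⟨_, rfl⟩
  have hS : ∀ i, (s i : ℝ) ≤ S := fun i => by rw [hSdef]; exact hsS i
  have hS0 : (0 : ℝ) ≤ S := by rw [hSdef]; positivity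
  have hRpos : (0 : ℝ) < R := by exact_mod_cast (by omega : 0 < R)
  have hlog1 : (1 : ℝ) ≤ Real.log R := hR2
  have hR1 : (2 * S + 1) * (Real.log R) ^ D ≤ R := by
    have h1 : (1 : ℝ) ≤ S := by rw [hSdef]; exact one_le_pow₀ hlog1
    have h2 : (0 : ℝ) ≤ (Real.log R) ^ D := by positivity
    rw [pow_add, ← hSdef] at hR0
    nlinarith
  have hsq : 1 ≤ Nat.sqrt R := Nat.sqrt_pos.2 (by omega)
  have hssq : ∀ i, s i ≤ Nat.sqrt R := by
    intro i
    rw [Nat.le_sqrt]
    have h1 : (s i : ℝ) * s i ≤ R := by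
      have h2 : (s i : ℝ) * s i ≤ (Real.log R) ^ E * (Real.log R) ^ E :=
        mul_le_mul (hsS i) (hsS i) (Nat.cast_nonneg _) (by positivity)
      rw [← pow_add] at h2
      exact h2.trans hRb
    exact_mod_cast h1
  have hL : (0 : ℝ) < (Real.log R) ^ D := by positivity
  -- elementary facts on the two clusters
  have hdiff : ∀ i0 j0 : Fin r, |((p + s j0 : ℕ) : ℝ) - ((q + s i0 : ℕ) : ℝ)| ≥ R / (Real.log R) ^ D - S := by
    intro i0 j0
    have e1 : |((s j0 : ℕ) : ℝ) - (s i0 : ℕ)| ≤ S := by
      rw [abs_le]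
      have a1 : ((s j0 : ℕ) : ℝ) ≤ S := hS j0
      have a2 : ((s i0 : ℕ) : ℝ) ≤ S := hS i0
      have a3 : (0 : ℝ) ≤ (s j0 : ℕ) := Nat.cast_nonneg _
      have a4 : (0 : ℝ) ≤ (s i0 : ℕ) := Nat.cast_nonneg _
      constructor <;> linarith
    have e2 : ((p + s j0 : ℕ) : ℝ) - ((q + s i0 : ℕ) : ℝ) = ((p : ℝ) - q) - (((s i0 : ℕ) : ℝ) - (s j0 : ℕ)) := by
      push_cast; ring
    rw [e2]
    have e3 := abs_sub_abs_le_abs_sub ((p : ℝ) - q) (((s i0 : ℕ) : ℝ) - (s j0 : ℕ))
    rw [abs_sub_comm ((s i0 : ℕ) : ℝ)] at e3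
    linarith
  have hposdiff : (0 : ℝ) < R / (Real.log R) ^ D - S := by
    have : 2 * (S : ℝ) + 1 ≤ R / (Real.log R) ^ D := by rw [le_div_iff₀ hL]; exact hR1
    linarith
  have hnl : ∀ i0 : Fin r, nodes s p q (Fin.castAdd r i0) = p + s i0 := fun i0 => by
    unfold nodes; rw [Fin.append_left]
  have hnr : ∀ i0 : Fin r, nodes s p q (Fin.natAdd r i0) = q + s i0 := fun i0 => by
    unfold nodes; rw [Fin.append_right]
  have hne : ∀ i0 j0 : Fin r, p + s j0 ≠ q + s i0 := by
    intro i0 j0 h
    have h1 := hdiff i0 j0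
    rw [h, sub_self, abs_zero] at h1
    linarith
  have hinj : Function.Injective (nodes s p q) := by
    intro i j hij
    induction i using Fin.addCases with
    | left i0 =>
      induction j using Fin.addCases with
      | left j0 =>
        rw [hnl, hnl] at hij
        rw [hs (by omega : s i0 = s j0)]
      | right j0 =>
        rw [hnl, hnr] at hij
        exact absurd hij (hne _ _)
    | right i0 =>
      induction j using Fin.addCases with
      | left j0 =>
        rw [hnl, hnr] at hij
        exact absurd hij.symm (hne _ _)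
      | right j0 =>
        rw [hnr, hnr] at hij
        rw [hs (by omega : s i0 = s j0)]
  have hone : ∀ i, 1 ≤ nodes s p q i := by
    intro i
    induction i using Fin.addCases with
    | left i0 => rw [hnl]; omega
    | right i0 => rw [hnr]; omega
  have hle : ∀ i, ((nodes s p q i : ℕ) : ℝ) ≤ 2 * R := by
    intro i
    have : nodes s p q i ≤ 2 * R := by
      induction i using Fin.addCases with
      | left i0 => rw [hnl]; have := hssq i0; omega
      | right i0 => rw [hnr]; have := hssq i0; omega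
    exact_mod_cast this
  have hsum : ∀ (h' : Fin (r + r) → ℝ) (x : ℕ),
      ∑ k : Fin (a + (r + r)), (Fin.append (fun _ : Fin a => (0 : ℝ)) h') k * (x : ℝ) ^ (k : ℕ) =
      ∑ k : Fin (r + r), h' k * (x : ℝ) ^ (a + (k : ℕ)) := by
    intro h' x
    rw [Fin.sum_univ_add]
    simp [Fin.append_left, Fin.append_right]
  obtain ⟨h', h1, h2, h3⟩ := direction (r + r) a (nodes s p q) hinj hone j
  refine ⟨Fin.append (fun _ : Fin a => (0 : ℝ)) h', ?_, ?_, ?_⟩
  · rw [hsum]; exact h1
  · intro i hi
    rw [hsum]; exact h2 i hi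
  have hxj : (1 : ℝ) ≤ nodes s p q j := by exact_mod_cast hone j
  intro k
  induction k using Fin.addCases with
  | left k0 =>
    rw [Fin.append_left, abs_zero, zero_mul]
    positivity
  | right k0 =>
    rw [Fin.append_right]
    have hxa : (0 : ℝ) < (nodes s p q j : ℝ) ^ a := by positivity
    have h4 : |h' k0| * (nodes s p q j : ℝ) ^ a ≤
        ∏ i ∈ univ.erase j, (2 * (nodes s p q i : ℝ) / |(nodes s p q j : ℝ) - nodes s p q i|) := by
      have := h3 k0
      rwa [le_div_iff₀ hxa] at this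
    refine h4.trans ?_
    have h5 := prod_bd (fun i => 2 * (nodes s p q i : ℝ) / |(nodes s p q j : ℝ) - nodes s p q i|)
      (fun i => by positivity) j (4 * (nodes s p q j : ℝ)) (8 * (Real.log R) ^ D)
      (by positivity) (by positivity) ?_ ?_
    · refine h5.trans ?_
      rw [mul_pow (4 : ℝ), mul_pow (8 : ℝ), ← pow_mul]
      have h6 : (Real.log R) ^ (D * r) ≤ (Real.log R) ^ (r * (D + 1)) :=
        pow_le_pow_right₀ hlog1 (by rw [mul_comm D r]; exact Nat.mul_le_mul_left r (Nat.le_succ D))
      calc (4 : ℝ) ^ (r - 1) * (nodes s p q j : ℝ) ^ (r - 1) * (8 ^ r * (Real.log R) ^ (D * r))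
          ≤ (4 : ℝ) ^ (r - 1) * (nodes s p q j : ℝ) ^ (r - 1) * (8 ^ r * (Real.log R) ^ (r * (D + 1))) := by
            gcongr
        _ = (4 : ℝ) ^ (r - 1) * 8 ^ r * (nodes s p q j : ℝ) ^ (r - 1) * (Real.log R) ^ (r * (D + 1)) := by
            ring
    · intro i hij hsame
      have hnat : ∀ u v : ℕ, u ≠ v → (1 : ℝ) ≤ |(u : ℝ) - v| := by
        intro u v huv
        have : (1 : ℤ) ≤ |(u : ℤ) - v| := Int.one_le_abs (by omega)
        exact_mod_cast this
      apply same_bd _ _ hxj
      · exact hnat _ _ (fun h => hij (hinj h.symm))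
      · have : nodes s p q i ≤ 2 * nodes s p q j := by
          induction i using Fin.addCases with
          | left i0 =>
            induction j using Fin.addCases with
            | left j0 => rw [hnl, hnl]; have := hssq i0; omega
            | right j0 => simp at hsame
          | right i0 =>
            induction j using Fin.addCases with
            | left j0 => simp at hsame
            | right j0 => rw [hnr, hnr]; have := hssq i0; omega
        exact_mod_cast this
      · exact Nat.cast_nonneg _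
    · intro i hns
      apply other_bd _ _ R _ S hRpos hL _ hR1 (hle i)
      induction i using Fin.addCases with
      | left i0 =>
        induction j using Fin.addCases with
        | left j0 => simp at hns
        | right j0 =>
          rw [hnl, hnr, abs_sub_comm]
          exact hdiff j0 i0
      | right i0 =>
        induction j using Fin.addCases with
        | left j0 =>
          rw [hnl, hnr]
          exact hdiff i0 j0
        | right j0 => simp at hns

end TN1

end Pool.Agent.helper616_TN
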