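import Pool.Agent.helper616_TN.Defs
import Pool.Agent.helper616_TN.TN2

/-!
# Project TN (helper616): the primes
-/

set_option autoImplicit false
set_option maxHeartbeats 4000000

open Finset MeasureTheory Filter Topology
open Pool.Agent.helper616_RP (th)
open Pool.Agent.helper616_TS (LogBdd)
open Pool.Agent.helper616_TM (val Q nodes)

namespace Pool.Agent.helper616_TN

open TN2 (stepU)

namespace TN3


theorem J9036_cont {m : ℕ} (y : ℕ) : Continuous (fun ω : Fin m → ℝ => val ω y) := by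
  unfold Pool.Agent.helper616_TM.val
  fun_prop

theorem J9036_meas {m : ℕ} (y : ℕ) : Measurable (fun ω : Fin m → ℝ => th ⌊val ω y⌋₊) := by
  have h1 : Measurable (fun ω : Fin m → ℝ => ⌊val ω y⌋₊) :=
    Nat.measurable_floor.comp (J9036_cont y).measurable
  exact (measurable_from_nat (f := th)).comp h1

theorem J9036_thle (n : ℕ) : |th n| ≤ n := by
  unfold th
  split_ifs with h
  · have h1 : (1 : ℝ) ≤ n := by exact_mod_cast h.one_lt.le
    rw [abs_of_nonneg (Real.log_nonneg h1)]
    have := Real.log_le_sub_one_of_pos (by linarith : (0 : ℝ) < n)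
    linarith
  · rw [abs_zero]; exact Nat.cast_nonneg n

theorem J9036_floor (v : ℝ) : (⌊v⌋₊ : ℝ) ≤ |v| := by
  rcases le_total 0 v with h | h
  · exact (Nat.floor_le h).trans (le_abs_self v)
  · rw [Nat.floor_of_nonpos h]
    simp

theorem J9036_int {m : ℕ} (a : Fin m → ℝ) {ι : Type} (S : Finset ι) (x : ι → ℕ) :
    IntegrableOn (fun ω : Fin m → ℝ => ∏ i ∈ S, th ⌊val ω (x i)⌋₊) (Q a) volume := by
  have hG : IntegrableOn (fun ω : Fin m → ℝ => ∏ i ∈ S, |val ω (x i)|) (Q a) volume := by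
    apply ContinuousOn.integrableOn_compact
    · exact isCompact_Icc
    · apply Continuous.continuousOn
      exact continuous_finsetProd _ (fun i _ => (J9036_cont (x i)).abs)
  refine Integrable.mono' hG ?_ ?_
  · apply Measurable.aestronglyMeasurable
    exact Finset.measurable_prod _ (fun i _ => J9036_meas (x i))
  · refine Filter.Eventually.of_forall (fun ω => ?_)
    rw [Real.norm_eq_abs, Finset.abs_prod]
    exact Finset.prod_le_prod (fun i _ => abs_nonneg _)
      (fun i _ => (J9036_thle _).trans (J9036_floor _))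

theorem J9036_vol {m : ℕ} (a : Fin m → ℝ) : (volume (Q a)).toReal = 1 := by
  unfold Q
  rw [Real.volume_Icc_pi]
  simp

theorem J9036_one {m : ℕ} (a : Fin m → ℝ) : ∫ _ω in Q a, (1 : ℝ) = 1 := by
  rw [setIntegral_const]
  have hv := J9036_vol a
  rw [smul_eq_mul, mul_one]
  unfold Measure.real
  rw [hv]

theorem J9036_log (n : ℕ) : Real.log 2 ≤ Real.log ((n : ℝ) + 2) :=
  Real.log_le_log (by norm_num) (by have : (0 : ℝ) ≤ n := Nat.cast_nonneg n; linarith)

theorem J9036_thl (n : ℕ) : |th n| ≤ Real.log ((n : ℝ) + 2) := by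
  unfold th
  split_ifs with h
  · have h1 : (1 : ℝ) ≤ n := by exact_mod_cast h.one_lt.le
    rw [abs_of_nonneg (Real.log_nonneg h1)]
    exact Real.log_le_log (by linarith) (by linarith)
  · rw [abs_zero]
    exact (Real.log_nonneg (by norm_num)).trans (J9036_log n)

theorem J9036_b1 : LogBdd th := ⟨1, 1, fun n => by
  rw [pow_one, one_mul]
  exact J9036_thl n⟩

theorem J9036_b2 : LogBdd (fun n => th n - 1) := by
  refine ⟨1 + 1 / Real.log 2, 1, fun n => ?_⟩
  rw [pow_one]
  have h0 : 0 < Real.log 2 := Real.log_pos (by norm_num)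
  have h1 := J9036_thl n
  have h2 := J9036_log n
  have h3 : 1 ≤ 1 / Real.log 2 * Real.log ((n : ℝ) + 2) := by
    rw [one_div, inv_mul_eq_div, le_div_iff₀ h0, one_mul]
    exact h2
  calc |th n - 1| ≤ |th n| + |(1 : ℝ)| := abs_sub _ _
    _ ≤ Real.log ((n : ℝ) + 2) + 1 := by rw [abs_one]; linarith
    _ ≤ (1 + 1 / Real.log 2) * Real.log ((n : ℝ) + 2) := by linarith

theorem coreU (r a m : ℕ) (hr : 1 ≤ r) (hm : m + 1 = a + (r + r)) (had : 5 * r < 2 * a + 4)
    (c : Fin (m + 1) → ℝ) (hc : 0 < c (Fin.last m)) (hv : Var13 (fun n => th n - 1)) (E D A : ℕ) :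
    ∃ C : ℝ, ∀ᶠ R : ℕ in atTop, ∀ s : Fin r → ℕ, Sh E R s → ∀ p q : ℕ, Far D R p q →
      |∫ ω in Q c, (tupB (fun _ => th) s p ω - 1) * (tupB (fun _ => th) s q ω - 1)| ≤ C / (Real.log R) ^ A := by
  obtain ⟨C, hC⟩ := stepU r a m hr hm had c hc (fun n => th n - 1) hv J9036_b2 (fun _ => th)
    (fun _ => J9036_b1) E D A
  refine ⟨3 * (2 * r * |C|), ?_⟩
  filter_upwards [hC, eventually_ge_atTop 2] with R hR hR2 s hs p q hpq
  have hR2' : (2 : ℝ) ≤ R := by exact_mod_cast hR2
  have hlog : 0 < Real.log R := Real.log_pos (by linarith)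
  have hLA : 0 < (Real.log R) ^ A := by positivity
  have key : ∀ S : Finset (Fin (r + r)),
      |(∫ ω in Q c, ∏ i ∈ S, th ⌊val ω (nodes s p q i)⌋₊) - 1| ≤ S.card * (|C| / (Real.log R) ^ A) := by
    intro S
    induction S using Finset.induction_on with
    | empty =>
      simp only [Finset.prod_empty, Finset.card_empty, Nat.cast_zero, zero_mul]
      rw [J9036_one c, sub_self, abs_zero]
    | insert j S hj ih =>
      have h1 := hR s hs p q hpq j S hj
      have hi1 := J9036_int c (insert j S) (nodes s p q)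
      have hi2 := J9036_int c S (nodes s p q)
      have h2 : ∫ ω in Q c, (∏ i ∈ S, th ⌊val ω (nodes s p q i)⌋₊) * (th ⌊val ω (nodes s p q j)⌋₊ - 1) =
          (∫ ω in Q c, ∏ i ∈ insert j S, th ⌊val ω (nodes s p q i)⌋₊) -
            ∫ ω in Q c, ∏ i ∈ S, th ⌊val ω (nodes s p q i)⌋₊ := by
        rw [← integral_sub hi1 hi2]
        congr 1
        funext ω
        rw [Finset.prod_insert hj]
        ring
      change |∫ ω in Q c, (∏ i ∈ S, th ⌊val ω (nodes s p q i)⌋₊) *
        (th ⌊val ω (nodes s p q j)⌋₊ - 1)| ≤ _ at h1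
      rw [h2] at h1
      have h3 : C / (Real.log R) ^ A ≤ |C| / (Real.log R) ^ A :=
        div_le_div_of_nonneg_right (le_abs_self C) hLA.le
      rw [Finset.card_insert_of_notMem hj]
      push_cast
      obtain ⟨x, hx⟩ : ∃ x : ℝ, x = ∫ ω in Q c, ∏ i ∈ insert j S, th ⌊val ω (nodes s p q i)⌋₊ := ⟨_, rfl⟩
      obtain ⟨y, hy⟩ : ∃ y : ℝ, y = ∫ ω in Q c, ∏ i ∈ S, th ⌊val ω (nodes s p q i)⌋₊ := ⟨_, rfl⟩
      rw [← hx, ← hy] at h1
      rw [← hy] at ih
      rw [← hx]
      calc |x - 1| = |(x - y) + (y - 1)| := by ring_nf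
        _ ≤ |x - y| + |y - 1| := abs_add_le _ _
        _ ≤ |C| / (Real.log R) ^ A + S.card * (|C| / (Real.log R) ^ A) := add_le_add (h1.trans h3) ih
        _ = ((S.card : ℝ) + 1) * (|C| / (Real.log R) ^ A) := by ring
  have hfin : ∀ S : Finset (Fin (r + r)), (S.card : ℝ) * (|C| / (Real.log R) ^ A) ≤ 2 * r * |C| / (Real.log R) ^ A := by
    intro S
    have h1 : S.card ≤ r + r := by
      have := Finset.card_le_univ S
      simpa using this
    have h2 : (S.card : ℝ) ≤ 2 * r := by
      have : (S.card : ℝ) ≤ (r : ℝ) + r := by exact_mod_cast h1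
      linarith
    rw [mul_div_assoc]
    exact mul_le_mul_of_nonneg_right h2 (by positivity)
  have n1 : ∀ i : Fin r, nodes s p q (Fin.castAdd r i) = p + s i := fun i => by
    unfold nodes
    exact Fin.append_left _ _ i
  have n2 : ∀ i : Fin r, nodes s p q (Fin.natAdd r i) = q + s i := fun i => by
    unfold nodes
    exact Fin.append_right _ _ i
  have e1 : ∀ ω : Fin (m + 1) → ℝ, ∏ i ∈ Finset.univ.map (Fin.castAddEmb r),
      th ⌊val ω (nodes s p q i)⌋₊ = tupB (fun _ => th) s p ω := by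
    intro ω
    rw [Finset.prod_map]
    unfold tupB
    refine Finset.prod_congr rfl (fun i _ => ?_)
    have h5 : nodes s p q (Fin.castAddEmb r i) = p + s i := n1 i
    rw [h5]
  have e2 : ∀ ω : Fin (m + 1) → ℝ, ∏ i ∈ Finset.univ.map (Fin.natAddEmb r),
      th ⌊val ω (nodes s p q i)⌋₊ = tupB (fun _ => th) s q ω := by
    intro ω
    rw [Finset.prod_map]
    unfold tupB
    refine Finset.prod_congr rfl (fun i _ => ?_)
    have h5 : nodes s p q (Fin.natAddEmb r i) = q + s i := n2 i
    rw [h5]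
  have e3 : ∀ ω : Fin (m + 1) → ℝ, ∏ i ∈ (Finset.univ : Finset (Fin (r + r))),
      th ⌊val ω (nodes s p q i)⌋₊ = tupB (fun _ => th) s p ω * tupB (fun _ => th) s q ω := by
    intro ω
    rw [Fin.prod_univ_add]
    unfold tupB
    congr 1
    · exact Finset.prod_congr rfl (fun i _ => by rw [n1])
    · exact Finset.prod_congr rfl (fun i _ => by rw [n2])
  have k1 := (key (Finset.univ.map (Fin.castAddEmb r))).trans (hfin _)
  have k2 := (key (Finset.univ.map (Fin.natAddEmb r))).trans (hfin _)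
  have k3 := (key Finset.univ).trans (hfin _)
  have i1 := J9036_int c (Finset.univ.map (Fin.castAddEmb r)) (nodes s p q)
  have i2 := J9036_int c (Finset.univ.map (Fin.natAddEmb r)) (nodes s p q)
  have i3 := J9036_int c (Finset.univ : Finset (Fin (r + r))) (nodes s p q)
  simp only [e1] at k1 i1
  simp only [e2] at k2 i2
  simp only [e3] at k3 i3
  have i4 : IntegrableOn (fun _ω : Fin (m + 1) → ℝ => (1 : ℝ)) (Q c) volume := by
    have := J9036_int c (∅ : Finset (Fin (r + r))) (nodes s p q)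
    simpa using this
  have hsplit : ∫ ω in Q c, (tupB (fun _ => th) s p ω - 1) * (tupB (fun _ => th) s q ω - 1) =
      ((∫ ω in Q c, tupB (fun _ => th) s p ω * tupB (fun _ => th) s q ω) - 1) -
      ((∫ ω in Q c, tupB (fun _ => th) s p ω) - 1) -
      ((∫ ω in Q c, tupB (fun _ => th) s q ω) - 1) := by
    have h1 : ∫ ω in Q c, (tupB (fun _ => th) s p ω - 1) * (tupB (fun _ => th) s q ω - 1) =
        ∫ ω in Q c, ((tupB (fun _ => th) s p ω * tupB (fun _ => th) s q ω -
          tupB (fun _ => th) s p ω) - (tupB (fun _ => th) s q ω - 1)) := by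
      congr 1
      funext ω
      ring
    have j1 : IntegrableOn (fun ω => tupB (fun _ => th) s p ω * tupB (fun _ => th) s q ω -
        tupB (fun _ => th) s p ω) (Q c) volume := i3.sub i1
    have j2 : IntegrableOn (fun ω => tupB (fun _ => th) s q ω - 1) (Q c) volume := i2.sub i4
    rw [h1, integral_sub j1 j2, integral_sub i3 i1, integral_sub i2 i4, J9036_one c]
    ring
  rw [hsplit]
  obtain ⟨B, hB⟩ : ∃ B : ℝ, B = 2 * r * |C| / (Real.log R) ^ A := ⟨_, rfl⟩
  rw [← hB] at k1 k2 k3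
  have hfinal : 3 * (2 * r * |C|) / (Real.log R) ^ A = 3 * B := by rw [hB]; ring
  rw [hfinal]
  rw [abs_le] at k1 k2 k3 ⊢
  constructor <;> linarith [k1.1, k1.2, k2.1, k2.2, k3.1, k3.2]

end TN3

end Pool.Agent.helper616_TN
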