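import Pool.Agent.helper616_TN.Defs
import Pool.Agent.helper616_TN.TN2

/-!
# Project TN (helper616): functions with mean value zero
-/

set_option autoImplicit false
set_option maxHeartbeats 4000000

open Finset MeasureTheory Filter Topology
open Pool.Agent.helper616_RP (th)
open Pool.Agent.helper616_TS (LogBdd)
open Pool.Agent.helper616_TM (val Q nodes)

namespace Pool.Agent.helper616_TN

open TN2 (stepU)

namespace TN4


theorem pairB (r a m : ℕ) (hr : 1 ≤ r) (hm : m + 1 = a + (r + r)) (had : 5 * r < 2 * a + 4)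
    (c : Fin (m + 1) → ℝ) (hc : 0 < c (Fin.last m)) (b : Fin r → ℕ → ℝ) (hb : ∀ i, LogBdd (b i)) (i₀ : Fin r)
    (hv : Var13 (b i₀)) (E D A : ℕ) :
    ∃ C : ℝ, ∀ᶠ R : ℕ in atTop, ∀ s : Fin r → ℕ, Sh E R s → ∀ p q : ℕ, Far D R p q →
      |∫ ω in Q c, (tupB b s p ω - 0) * (tupB b s q ω - 0)| ≤ C / (Real.log R) ^ A := by
  have hb' : ∀ i : Fin (r + r), LogBdd (Fin.append b b i) := by
    intro i
    refine Fin.addCases (fun j => ?_) (fun j => ?_) i
    · rw [Fin.append_left]; exact hb j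
    · rw [Fin.append_right]; exact hb j
  obtain ⟨C, hC⟩ := stepU r a m hr hm had c hc (b i₀) hv (hb i₀) (Fin.append b b) hb' E D A
  refine ⟨C, ?_⟩
  filter_upwards [hC] with R hR s hs p q hpq
  have h := hR s hs p q hpq (Fin.castAdd r i₀) (univ.erase (Fin.castAdd r i₀)) (by simp)
  have e : ∀ ω : Fin (m + 1) → ℝ, (tupB b s p ω - 0) * (tupB b s q ω - 0) =
      (∏ i ∈ univ.erase (Fin.castAdd r i₀), Fin.append b b i ⌊val ω (nodes s p q i)⌋₊) * b i₀ ⌊val ω (nodes s p q (Fin.castAdd r i₀))⌋₊ := by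
    intro ω
    have h1 : (∏ i ∈ univ.erase (Fin.castAdd r i₀), Fin.append b b i ⌊val ω (nodes s p q i)⌋₊) * Fin.append b b (Fin.castAdd r i₀) ⌊val ω (nodes s p q (Fin.castAdd r i₀))⌋₊ = ∏ i : Fin (r + r), Fin.append b b i ⌊val ω (nodes s p q i)⌋₊ :=
      Finset.prod_erase_mul _ _ (Finset.mem_univ _)
    rw [Fin.append_left] at h1
    rw [h1, Fin.prod_univ_add]
    simp only [tupB, nodes, Fin.append_left, Fin.append_right, sub_zero]
  simp only [e]
  exact h

end TN4

end Pool.Agent.helper616_TN
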