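import Pool.Agent.helper616_TN.Defs

/-!
# Project TN (helper616): bounds
-/

set_option autoImplicit false
set_option maxHeartbeats 4000000

open Finset MeasureTheory Filter Topology
open Pool.Agent.helper616_RP (th)
open Pool.Agent.helper616_TS (LogBdd)
open Pool.Agent.helper616_TM (val Q nodes)

namespace Pool.Agent.helper616_TN

namespace TN5


lemma floor_le_abs' (x : ℝ) : ((⌊x⌋₊ : ℕ) : ℝ) ≤ |x| := by
  rcases le_total 0 x with h | h
  · exact (Nat.floor_le h).trans (le_abs_self x)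
  · rw [Nat.floor_of_nonpos h]; simp

lemma log_floor_bound {m : ℕ} (c : Fin m → ℝ) (E : ℕ) : ∃ D : ℝ, 0 ≤ D ∧ ∀ R x : ℕ, 1 ≤ R →
    (x : ℝ) ≤ R + (Real.log R) ^ E → ∀ ω ∈ Q c,
    Real.log ((⌊val ω x⌋₊ : ℕ) + 2) ≤ D * Real.log (R + 2) := by
  set A : ℝ := ∑ k : Fin m, (|c k| + 1) with hA
  have hA0 : 0 ≤ A := Finset.sum_nonneg fun k _ => by positivity
  set B : ℝ := A * (1 + (E.factorial : ℝ)) ^ m + 2 with hB
  have hB2 : 2 ≤ B := by
    have : 0 ≤ A * (1 + (E.factorial : ℝ)) ^ m := by positivity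
    linarith
  have hlB : 0 ≤ Real.log B := Real.log_nonneg (by linarith)
  have hl2 : 0 < Real.log 2 := Real.log_pos (by norm_num)
  refine ⟨Real.log B / Real.log 2 + m, by positivity, fun R x hR hx ω hω => ?_⟩
  have hR1 : (1:ℝ) ≤ R := by exact_mod_cast hR
  have hlogR : 0 ≤ Real.log R := Real.log_nonneg hR1
  have hE : (Real.log R) ^ E ≤ E.factorial * R := by
    have h := Real.pow_div_factorial_le_exp (Real.log R) hlogR E
    rw [Real.exp_log (by linarith)] at h
    rw [div_le_iff₀ (by positivity)] at h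
    linarith
  have hf0 : (0:ℝ) ≤ E.factorial := by positivity
  set X : ℝ := (1 + (E.factorial : ℝ)) * (R + 2) with hX
  have hxX : (x : ℝ) ≤ X := by
    rw [hX]; nlinarith
  have hX1 : 1 ≤ X := by rw [hX]; nlinarith
  have hω' : ∀ k, |ω k| ≤ |c k| + 1 := by
    intro k
    have h1 := hω.1 k
    have h2 := hω.2 k
    rw [abs_le]
    have h3 := neg_abs_le (c k)
    have h4 := le_abs_self (c k)
    simp only at h2
    constructor <;> linarith
  have hval : |val ω x| ≤ A * X ^ m := by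
    unfold Pool.Agent.helper616_TM.val
    calc |∑ k, ω k * (x : ℝ) ^ (k : ℕ)| ≤ ∑ k, |ω k * (x : ℝ) ^ (k : ℕ)| := Finset.abs_sum_le_sum_abs _ _
      _ ≤ ∑ k : Fin m, (|c k| + 1) * X ^ m := by
          apply Finset.sum_le_sum
          intro k _
          rw [abs_mul, abs_of_nonneg (by positivity : (0:ℝ) ≤ (x : ℝ) ^ (k : ℕ))]
          apply mul_le_mul (hω' k) _ (by positivity) (by positivity)
          calc (x : ℝ) ^ (k : ℕ) ≤ X ^ (k : ℕ) := pow_le_pow_left₀ (by positivity) hxX _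
            _ ≤ X ^ m := pow_le_pow_right₀ hX1 k.2.le
      _ = A * X ^ m := by rw [hA, Finset.sum_mul]
  have hR2 : (1:ℝ) ≤ (R + 2) ^ m := one_le_pow₀ (by linarith)
  have hN : ((⌊val ω x⌋₊ : ℕ) : ℝ) + 2 ≤ B * (R + 2) ^ m := by
    have h1 := floor_le_abs' (val ω x)
    have h2 : A * X ^ m = A * (1 + (E.factorial : ℝ)) ^ m * (R + 2) ^ m := by
      rw [hX, mul_pow]; ring
    have h3 : B * ((R:ℝ) + 2) ^ m = A * (1 + (E.factorial : ℝ)) ^ m * (R + 2) ^ m + 2 * (R + 2) ^ m := by
      rw [hB]; ring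
    rw [h3]
    linarith
  have hpos : (0:ℝ) < ((⌊val ω x⌋₊ : ℕ) : ℝ) + 2 := by positivity
  have hl : Real.log 2 ≤ Real.log ((R:ℝ) + 2) := Real.log_le_log (by norm_num) (by linarith)
  calc Real.log (((⌊val ω x⌋₊ : ℕ) : ℝ) + 2) ≤ Real.log (B * ((R:ℝ) + 2) ^ m) := Real.log_le_log hpos hN
    _ = Real.log B + m * Real.log ((R:ℝ) + 2) := by
        rw [Real.log_mul (by positivity) (by positivity), Real.log_pow]
    _ ≤ Real.log B / Real.log 2 * Real.log ((R:ℝ) + 2) + m * Real.log ((R:ℝ) + 2) := by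
        have : Real.log B = Real.log B / Real.log 2 * Real.log 2 := by field_simp
        have h2 : Real.log B / Real.log 2 * Real.log 2 ≤ Real.log B / Real.log 2 * Real.log ((R:ℝ) + 2) :=
          mul_le_mul_of_nonneg_left hl (by positivity)
        linarith
    _ = (Real.log B / Real.log 2 + m) * Real.log ((R:ℝ) + 2) := by ring

theorem boundU {m : ℕ} (k : ℕ) (c : Fin m → ℝ) (b : Fin k → ℕ → ℝ) (hb : ∀ i, LogBdd (b i)) :
    (∀ s n, Measurable (fun ω : Fin m → ℝ => tupB b s n ω)) ∧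
    ∃ K : ℕ, ∀ E : ℕ, ∃ C : ℝ, ∀ R n : ℕ, n < R → ∀ s : Fin k → ℕ, Sh E R s → ∀ ω ∈ Q c,
      |tupB b s n ω| ≤ C * (Real.log (R + 2)) ^ K := by
  classical
  refine ⟨fun s n => ?_, ?_⟩
  · unfold tupB
    refine Finset.measurable_prod _ (fun i _ => ?_)
    have h1 : Measurable (fun ω : Fin m → ℝ => val ω (n + s i)) := by
      unfold Pool.Agent.helper616_TM.val
      exact Continuous.measurable (by fun_prop)
    exact (measurable_from_top (f := b i)).comp (Nat.measurable_floor.comp h1)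
  · choose C κ hC using hb
    have hC0 : ∀ i, 0 ≤ C i := by
      intro i
      have h := (abs_nonneg _).trans (hC i 0)
      have h2 : 0 < Real.log (((0:ℕ):ℝ) + 2) ^ κ i := by
        apply pow_pos; apply Real.log_pos; norm_num
      by_contra hneg
      push Not at hneg
      have := mul_neg_of_neg_of_pos hneg h2
      linarith
    refine ⟨∑ i, κ i, fun E => ?_⟩
    obtain ⟨D, hD0, hD⟩ := log_floor_bound c E
    refine ⟨∏ i, (C i * D ^ κ i), fun R n hn s hs ω hω => ?_⟩
    have hR : 1 ≤ R := by omega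
    have hR1 : (1:ℝ) ≤ R := by exact_mod_cast hR
    have hlR : 0 ≤ Real.log ((R:ℝ) + 2) := Real.log_nonneg (by linarith)
    unfold tupB
    rw [Finset.abs_prod]
    calc ∏ i, |b i ⌊val ω (n + s i)⌋₊| ≤ ∏ i, (C i * D ^ κ i * Real.log ((R:ℝ) + 2) ^ κ i) := by
          apply Finset.prod_le_prod (fun i _ => abs_nonneg _)
          intro i _
          refine (hC i _).trans ?_
          rw [mul_assoc]
          apply mul_le_mul_of_nonneg_left _ (hC0 i)
          rw [← mul_pow]
          apply pow_le_pow_left₀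
          · apply Real.log_nonneg
            have : (0:ℝ) ≤ ((⌊val ω (n + s i)⌋₊ : ℕ) : ℝ) := by positivity
            linarith
          · refine hD R (n + s i) hR ?_ ω hω
            push_cast
            have h1 : (n:ℝ) ≤ R := by exact_mod_cast hn.le
            have h2 := hs.2 i
            linarith
      _ = (∏ i, (C i * D ^ κ i)) * Real.log ((R:ℝ) + 2) ^ (∑ i, κ i) := by
          rw [Finset.prod_mul_distrib, Finset.prod_pow_eq_pow_sum]

end TN5

end Pool.Agent.helper616_TN
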