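import Pool.Agent.helper616_TN.Defs
import Pool.Agent.helper616_TN.TN5

/-!
# Project TN (helper616): the mean square
-/

set_option autoImplicit false
set_option maxHeartbeats 4000000

open Finset MeasureTheory Filter Topology
open Pool.Agent.helper616_RP (th)
open Pool.Agent.helper616_TS (LogBdd)
open Pool.Agent.helper616_TM (val Q nodes)

namespace Pool.Agent.helper616_TN

open TN5 (boundU)

namespace TN6


theorem vol_Q' {m : ℕ} (c : Fin m → ℝ) : volume (Q c) = 1 := by
  unfold Q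
  rw [Real.volume_Icc_pi]
  simp

theorem near_count' (q : ℕ) (S : Finset ℕ) (X : ℝ) (hX : 0 ≤ X) :
    ((S.filter (fun n : ℕ => |(q : ℝ) - n| < X)).card : ℝ) ≤ 2 * X + 1 := by
  have hsub : S.filter (fun n : ℕ => |(q : ℝ) - n| < X) ⊆ Icc (q - ⌊X⌋₊) (q + ⌊X⌋₊) := by
    intro n hn
    rw [mem_filter] at hn
    have h := abs_lt.1 hn.2
    rw [mem_Icc]
    constructor
    · rcases Nat.lt_or_ge n q with h1 | h1
      · have : q - n ≤ ⌊X⌋₊ := by
          apply Nat.le_floor
          rw [Nat.cast_sub h1.le]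
          linarith [h.2]
        omega
      · omega
    · rcases Nat.lt_or_ge q n with h1 | h1
      · have : n - q ≤ ⌊X⌋₊ := by
          apply Nat.le_floor
          rw [Nat.cast_sub h1.le]
          linarith [h.1]
        omega
      · omega
  have h1 := Finset.card_le_card hsub
  rw [Nat.card_Icc] at h1
  have h2 : (S.filter (fun n : ℕ => |(q : ℝ) - n| < X)).card ≤ 2 * ⌊X⌋₊ + 1 := by omega
  have h3 : ((S.filter (fun n : ℕ => |(q : ℝ) - n| < X)).card : ℝ) ≤ 2 * (⌊X⌋₊ : ℝ) + 1 := by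
    exact_mod_cast h2
  have h4 := Nat.floor_le hX
  linarith

theorem log_pow_le' (k : ℕ) : ∀ᶠ R : ℕ in atTop, (Real.log R) ^ k ≤ R := by
  have h1 := (Real.isLittleO_pow_log_id_atTop (n := k)).bound (c := 1) one_pos
  have h2 := tendsto_natCast_atTop_atTop (R := ℝ) |>.eventually h1
  filter_upwards [h2] with R hR
  simp only [id_eq, one_mul, Real.norm_eq_abs] at hR
  have h3 := le_abs_self ((Real.log R) ^ k)
  rw [abs_of_nonneg (Nat.cast_nonneg R : (0 : ℝ) ≤ R)] at hR
  linarith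

theorem log_ge' (K : ℝ) : ∀ᶠ R : ℕ in atTop, K ≤ Real.log R :=
  (Real.tendsto_log_atTop.comp tendsto_natCast_atTop_atTop).eventually_ge_atTop K

theorem msU {m : ℕ} (k : ℕ) (c : Fin m → ℝ) (b : Fin k → ℕ → ℝ) (hb : ∀ i, LogBdd (b i)) (κ : ℝ)
    (hp : ∀ E D A : ℕ, ∃ C : ℝ, ∀ᶠ R : ℕ in atTop, ∀ s : Fin k → ℕ, Sh E R s → ∀ p q : ℕ, Far D R p q →
      |∫ ω in Q c, (tupB b s p ω - κ) * (tupB b s q ω - κ)| ≤ C / (Real.log R) ^ A) (E A : ℕ) :
    ∃ C : ℝ, ∀ᶠ R : ℕ in atTop, ∀ s : Fin k → ℕ, Sh E R s →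
      ∫ ω in Q c, (∑ n ∈ range R, (tupB b s n ω - κ)) ^ 2 ≤ C * (R : ℝ) ^ 2 / (Real.log R) ^ A := by
  classical
  obtain ⟨hmeas, K, hK⟩ := boundU k c b hb
  obtain ⟨C0, hC0⟩ := hK E
  obtain ⟨C1, hC1⟩ := hp E (A + 2 * K + 1) A
  obtain ⟨B, hB⟩ : ∃ B : ℝ, B = |C0| * 2 ^ K + |κ| := ⟨_, rfl⟩
  have hB0 : 0 ≤ B := by rw [hB]; positivity
  refine ⟨|C1| + 5 * B ^ 2, ?_⟩
  filter_upwards [hC1, log_ge' 1, eventually_ge_atTop 16, log_pow_le' (A + 2 * K),
    log_pow_le' (2 * (A + 2 * K))] with R h1 h2 h3 h4 h5 s hs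
  obtain ⟨L, hL⟩ : ∃ L : ℝ, L = Real.log (R : ℝ) := ⟨_, rfl⟩
  rw [← hL] at h1 h2 h4 h5 ⊢
  have hL0 : 0 < L := by linarith
  have hR' : (16 : ℝ) ≤ R := by exact_mod_cast h3
  have hR0 : (0 : ℝ) < R := by linarith
  obtain ⟨f, hf⟩ : ∃ f : ℕ → (Fin m → ℝ) → ℝ, f = fun n ω => tupB b s n ω - κ := ⟨_, rfl⟩
  have hfe : ∀ n ω, tupB b s n ω - κ = f n ω := fun n ω => by rw [hf]
  have hfm : ∀ n, Measurable (f n) := fun n => by
    rw [hf]
    exact (hmeas s n).sub_const κ
  -- the pointwise bound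
  have hfb : ∀ n < R, ∀ ω ∈ Q c, |f n ω| ≤ B * L ^ K := by
    intro n hn ω hω
    have a1 := hC0 R n hn s hs ω hω
    have a2 : Real.log ((R : ℝ) + 2) ≤ 2 * L := by
      have e : 2 * L = Real.log ((R : ℝ) ^ 2) := by
        rw [Real.log_pow, hL]; norm_num
      rw [e]
      refine Real.log_le_log (by positivity) ?_
      nlinarith
    have a3 : 0 ≤ Real.log ((R : ℝ) + 2) := Real.log_nonneg (by linarith)
    have a4 : (Real.log ((R : ℝ) + 2)) ^ K ≤ 2 ^ K * L ^ K := by
      rw [← mul_pow]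
      exact pow_le_pow_left₀ a3 a2 K
    have a5 : (1 : ℝ) ≤ L ^ K := one_le_pow₀ h2
    calc |f n ω| ≤ |tupB b s n ω| + |κ| := by
          rw [← hfe]
          exact abs_sub _ _
      _ ≤ C0 * (Real.log ((R : ℝ) + 2)) ^ K + |κ| := by linarith
      _ ≤ |C0| * (Real.log ((R : ℝ) + 2)) ^ K + |κ| := by
          have := mul_le_mul_of_nonneg_right (le_abs_self C0) (pow_nonneg a3 K)
          linarith
      _ ≤ |C0| * (2 ^ K * L ^ K) + |κ| * L ^ K := by
          have b1 := mul_le_mul_of_nonneg_left a4 (abs_nonneg C0)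
          have b2 := mul_le_mul_of_nonneg_left a5 (abs_nonneg κ)
          linarith
      _ = B * L ^ K := by rw [hB]; ring
  have hv : volume (Q c) < ⊤ := by rw [vol_Q']; exact ENNReal.one_lt_top
  have hvr : (volume : Measure (Fin m → ℝ)).real (Q c) = 1 := by
    rw [Measure.real, vol_Q']; simp
  have hQm : MeasurableSet (Q c) := by
    unfold Q
    exact measurableSet_Icc
  obtain ⟨M, hM⟩ : ∃ M : ℝ, M = B * L ^ K * (B * L ^ K) := ⟨_, rfl⟩
  have hM0 : 0 ≤ M := by rw [hM]; positivity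
  have hfg : ∀ p < R, ∀ q < R, ∀ ω ∈ Q c, ‖f p ω * f q ω‖ ≤ M := by
    intro p hp' q hq ω hω
    rw [Real.norm_eq_abs, abs_mul, hM]
    exact mul_le_mul (hfb p hp' ω hω) (hfb q hq ω hω) (abs_nonneg _) (by positivity)
  have hint : ∀ p < R, ∀ q < R, IntegrableOn (fun ω => f p ω * f q ω) (Q c) := by
    intro p hp' q hq
    refine Measure.integrableOn_of_bounded (M := M) hv.ne
      ((hfm p).mul (hfm q)).aestronglyMeasurable ?_
    rw [ae_restrict_iff' hQm]
    exact Filter.Eventually.of_forall (hfg p hp' q hq)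
  have hJ : ∀ p < R, ∀ q < R, |∫ ω in Q c, f p ω * f q ω| ≤ M := by
    intro p hp' q hq
    have h6 := norm_setIntegral_le_of_norm_le_const (μ := volume) (s := Q c)
      (f := fun ω => f p ω * f q ω) (C := M) hv (hfg p hp' q hq)
    rwa [hvr, mul_one, Real.norm_eq_abs] at h6
  -- expanding the square
  have hexp : ∫ ω in Q c, (∑ n ∈ range R, (tupB b s n ω - κ)) ^ 2 =
      ∑ p ∈ range R, ∑ q ∈ range R, ∫ ω in Q c, f p ω * f q ω := by
    have e1 : (fun ω => (∑ n ∈ range R, (tupB b s n ω - κ)) ^ 2) =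
        fun ω => ∑ p ∈ range R, ∑ q ∈ range R, f p ω * f q ω := by
      funext ω
      simp only [hfe]
      rw [sq, Finset.sum_mul_sum]
    rw [e1, integral_finset_sum _ (fun p hp' => ?_)]
    · refine Finset.sum_congr rfl fun p hp' => ?_
      rw [integral_finset_sum _ (fun q hq => hint p (mem_range.1 hp') q (mem_range.1 hq))]
    · exact integrable_finset_sum _ fun q hq => hint p (mem_range.1 hp') q (mem_range.1 hq)
  rw [hexp]
  obtain ⟨X, hX⟩ : ∃ X : ℝ, X = (R : ℝ) / L ^ (A + 2 * K + 1) := ⟨_, rfl⟩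
  have hX0 : 0 ≤ X := by rw [hX]; positivity
  obtain ⟨r, hr⟩ : ∃ r : ℕ, r = Nat.sqrt R := ⟨_, rfl⟩
  have hterm : ∀ p ∈ range R, ∀ q ∈ range R, ∫ ω in Q c, f p ω * f q ω ≤
      |C1| / L ^ A + ((if |(p : ℝ) - q| < X then M else 0) +
        ((if p < r then M else 0) + (if q < r then M else 0))) := by
    intro p hp' q hq
    rw [mem_range] at hp' hq
    have g0 : 0 ≤ |C1| / L ^ A := by positivity
    have g1 : 0 ≤ (if |(p : ℝ) - q| < X then M else 0) := by split_ifs <;> linarith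
    have g2 : 0 ≤ (if p < r then M else 0) := by split_ifs <;> linarith
    have g3 : 0 ≤ (if q < r then M else 0) := by split_ifs <;> linarith
    have g4 := (le_abs_self _).trans (hJ p hp' q hq)
    by_cases k1 : |(p : ℝ) - q| < X
    · rw [if_pos k1] at g1 ⊢
      linarith
    by_cases k2 : p < r
    · rw [if_pos k2] at g2 ⊢
      linarith
    by_cases k3 : q < r
    · rw [if_pos k3] at g3 ⊢
      linarith
    have hfar : Far (A + 2 * K + 1) R p q := by
      refine ⟨by omega, hp', by omega, hq, ?_⟩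
      rw [← hL, ← hX]
      exact not_lt.1 k1
    have h6 := h1 s hs p q hfar
    simp only [hfe] at h6
    have h7 : C1 / L ^ A ≤ |C1| / L ^ A :=
      div_le_div_of_nonneg_right (le_abs_self _) (pow_nonneg hL0.le _)
    have h8 := le_abs_self (∫ ω in Q c, f p ω * f q ω)
    linarith
  have hinner : ∀ p ∈ range R, ∑ q ∈ range R, ∫ ω in Q c, f p ω * f q ω ≤
      R * (|C1| / L ^ A) + ((2 * X + 1) * M + (R * (if p < r then M else 0) + r * M)) := by
    intro p hp'
    refine (Finset.sum_le_sum (hterm p hp')).trans ?_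
    rw [Finset.sum_add_distrib, Finset.sum_add_distrib, Finset.sum_add_distrib, Finset.sum_const,
      card_range, nsmul_eq_mul, ← Finset.sum_filter, Finset.sum_const, nsmul_eq_mul,
      Finset.sum_const, card_range, nsmul_eq_mul, ← Finset.sum_filter, Finset.sum_const,
      nsmul_eq_mul]
    have g1 := mul_le_mul_of_nonneg_right (near_count' p (range R) X hX0) hM0
    have g2 : (((range R).filter (fun q => q < r)).card : ℝ) ≤ r := by
      have : (range R).filter (fun q => q < r) ⊆ range r := by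
        intro q hq
        rw [mem_filter] at hq
        exact mem_range.2 hq.2
      have h6 := Finset.card_le_card this
      rw [card_range] at h6
      exact_mod_cast h6
    have g3 := mul_le_mul_of_nonneg_right g2 hM0
    linarith
  have hrR : ((range R).filter (fun q => q < r)).card ≤ r := by
    have : (range R).filter (fun q => q < r) ⊆ range r := by
      intro q hq
      rw [mem_filter] at hq
      exact mem_range.2 hq.2
    have h6 := Finset.card_le_card this
    rwa [card_range] at h6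
  have hrR' : (((range R).filter (fun q => q < r)).card : ℝ) ≤ r := by exact_mod_cast hrR
  have houter : ∑ p ∈ range R, (R * (|C1| / L ^ A) + ((2 * X + 1) * M +
      (R * (if p < r then M else 0) + r * M))) ≤
      R * (R * (|C1| / L ^ A)) + (R * ((2 * X + 1) * M) + (R * (r * M) + R * (r * M))) := by
    rw [Finset.sum_add_distrib, Finset.sum_add_distrib, Finset.sum_add_distrib, Finset.sum_const,
      Finset.sum_const, Finset.sum_const, card_range, nsmul_eq_mul, nsmul_eq_mul, nsmul_eq_mul,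
      ← Finset.mul_sum, ← Finset.sum_filter, Finset.sum_const, nsmul_eq_mul]
    have g3 := mul_le_mul_of_nonneg_left (mul_le_mul_of_nonneg_right hrR' hM0) hR0.le
    linarith
  refine ((Finset.sum_le_sum hinner).trans houter).trans ?_
  -- the final estimate
  have hT : 0 ≤ (R : ℝ) ^ 2 / L ^ A := by positivity
  have hMe : M = B ^ 2 * L ^ (2 * K) := by rw [hM, two_mul K, pow_add]; ring
  have e1 : R * (R * (|C1| / L ^ A)) = |C1| * ((R : ℝ) ^ 2 / L ^ A) := by ring
  have e2 : R * (2 * X * M) ≤ 2 * B ^ 2 * ((R : ℝ) ^ 2 / L ^ A) := by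
    have e3 : R * (2 * X * M) =
        2 * B ^ 2 * ((R : ℝ) ^ 2 * (L ^ (2 * K) / L ^ (A + 2 * K + 1))) := by
      rw [hX, hMe]; ring
    have e4 : L ^ (2 * K) / L ^ (A + 2 * K + 1) ≤ 1 / L ^ A := by
      rw [div_le_div_iff₀ (by positivity) (by positivity), ← pow_add, one_mul]
      exact pow_le_pow_right₀ h2 (by omega)
    rw [e3, div_eq_mul_one_div ((R : ℝ) ^ 2) (L ^ A)]
    refine mul_le_mul_of_nonneg_left ?_ (by positivity)
    exact mul_le_mul_of_nonneg_left e4 (by positivity)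
  have e5 : R * (1 * M) ≤ B ^ 2 * ((R : ℝ) ^ 2 / L ^ A) := by
    have e6 : L ^ (2 * K) ≤ R / L ^ A := by
      rw [le_div_iff₀ (by positivity), ← pow_add, add_comm (2 * K) A]
      exact h4
    calc R * (1 * M) = B ^ 2 * (R * L ^ (2 * K)) := by rw [hMe]; ring
      _ ≤ B ^ 2 * (R * (R / L ^ A)) := by
          refine mul_le_mul_of_nonneg_left ?_ (by positivity)
          exact mul_le_mul_of_nonneg_left e6 (by linarith)
      _ = _ := by ring
  have e7 : R * (r * M) ≤ B ^ 2 * ((R : ℝ) ^ 2 / L ^ A) := by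
    have e8 : (r : ℝ) * L ^ (A + 2 * K) ≤ R := by
      have k1 : (r : ℝ) * r ≤ R := by
        rw [hr]
        exact_mod_cast Nat.sqrt_le R
      have k2 : (r * L ^ (A + 2 * K)) ^ 2 ≤ (R : ℝ) ^ 2 := by
        calc (r * L ^ (A + 2 * K)) ^ 2 = (r * r) * L ^ (2 * (A + 2 * K)) := by ring
          _ ≤ R * R := mul_le_mul k1 h5 (by positivity) hR0.le
          _ = _ := by ring
      exact (pow_le_pow_iff_left₀ (by positivity) hR0.le two_ne_zero).1 k2
    have e9 : (r : ℝ) * L ^ (2 * K) ≤ R / L ^ A := by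
      rw [le_div_iff₀ (by positivity)]
      calc (r : ℝ) * L ^ (2 * K) * L ^ A = r * L ^ (A + 2 * K) := by ring
        _ ≤ R := e8
    calc R * (r * M) = B ^ 2 * (R * (r * L ^ (2 * K))) := by rw [hMe]; ring
      _ ≤ B ^ 2 * (R * (R / L ^ A)) := by
          refine mul_le_mul_of_nonneg_left ?_ (by positivity)
          exact mul_le_mul_of_nonneg_left e9 (by linarith)
      _ = _ := by ring
  have e10 : R * ((2 * X + 1) * M) = R * (2 * X * M) + R * (1 * M) := by ring
  have e11 : (|C1| + 5 * B ^ 2) * (R : ℝ) ^ 2 / L ^ A =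
      |C1| * ((R : ℝ) ^ 2 / L ^ A) + (2 * B ^ 2 * ((R : ℝ) ^ 2 / L ^ A) +
        B ^ 2 * ((R : ℝ) ^ 2 / L ^ A) + (B ^ 2 * ((R : ℝ) ^ 2 / L ^ A) +
        B ^ 2 * ((R : ℝ) ^ 2 / L ^ A))) := by ring
  rw [e11, e1, e10]
  linarith

end TN6

end Pool.Agent.helper616_TN
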