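import Pool.Agent.helper616_TN.Defs

/-!
# Project TN (helper616): from the mean square to almost all parameters, uniformly
-/

set_option autoImplicit false
set_option maxHeartbeats 4000000

open Finset MeasureTheory Filter Topology
open Pool.Agent.helper616_RP (th)
open Pool.Agent.helper616_TS (LogBdd)
open Pool.Agent.helper616_TM (val Q nodes)

namespace Pool.Agent.helper616_TN

namespace TN7


lemma aeU_summ : Summable (fun n : ℕ => 1 / ((n : ℝ) * (Real.log ((n : ℝ) + 1)) ^ 2)) := by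
  rw [← summable_condensed_iff_of_nonneg]
  · have h1 : Summable (fun k : ℕ => (1 / (Real.log 2) ^ 2) * (1 / ((k : ℝ)) ^ 2)) :=
      (Real.summable_one_div_nat_pow.2 (by norm_num)).mul_left _
    rw [← summable_nat_add_iff 1] at h1 ⊢
    refine Summable.of_nonneg_of_le (fun k => by positivity) (fun k => ?_) h1
    have hl2 : 0 < Real.log 2 := Real.log_pos (by norm_num)
    have h2 : ((k + 1 : ℕ) : ℝ) * Real.log 2 ≤ Real.log (((2 ^ (k + 1) : ℕ) : ℝ) + 1) := by
      have : ((k + 1 : ℕ) : ℝ) * Real.log 2 = Real.log (((2 ^ (k + 1) : ℕ) : ℝ)) := by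
        push_cast
        rw [Real.log_pow]
        push_cast
        ring
      rw [this]
      exact Real.log_le_log (by positivity) (by linarith)
    have h3 : 0 < ((k + 1 : ℕ) : ℝ) * Real.log 2 := by positivity
    have h4 : (2 : ℝ) ^ (k + 1) * (1 / (((2 ^ (k + 1) : ℕ) : ℝ) * (Real.log (((2 ^ (k + 1) : ℕ) : ℝ) + 1)) ^ 2)) =
        1 / (Real.log (((2 ^ (k + 1) : ℕ) : ℝ) + 1)) ^ 2 := by
      push_cast
      have : (0 : ℝ) < 2 ^ (k + 1) := by positivity
      field_simp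
    rw [h4]
    have h5 : 1 / Real.log 2 ^ 2 * (1 / (((k + 1 : ℕ) : ℝ)) ^ 2) = 1 / (((k + 1 : ℕ) : ℝ) * Real.log 2) ^ 2 := by
      rw [mul_pow]
      field_simp
    rw [h5]
    exact one_div_le_one_div_of_le (by positivity) (pow_le_pow_left₀ h3.le h2 2)
  · intro n
    positivity
  · intro m n hm hmn
    have hm' : (1 : ℝ) ≤ m := by exact_mod_cast hm
    have hmn' : (m : ℝ) ≤ n := by exact_mod_cast hmn
    have h1 : 0 < Real.log ((m : ℝ) + 1) := Real.log_pos (by linarith)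
    have h2 : Real.log ((m : ℝ) + 1) ≤ Real.log ((n : ℝ) + 1) := Real.log_le_log (by linarith) (by linarith)
    apply one_div_le_one_div_of_le (by positivity)
    gcongr

lemma aeU_diff (b : ℕ → ℝ) (B : ℝ) (N M : ℕ) (h : N ≤ M) (hB : ∀ n, n < M → |b n| ≤ B) :
    |∑ n ∈ range M, b n - ∑ n ∈ range N, b n| ≤ ((M : ℝ) - N) * B := by
  rw [← Finset.sum_Ico_eq_sub _ h]
  refine (Finset.abs_sum_le_sum_abs _ _).trans ?_
  refine (Finset.sum_le_card_nsmul _ _ B (fun n hn => hB n (Finset.mem_Ico.1 hn).2)).trans ?_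
  rw [nsmul_eq_mul, Nat.card_Ico, Nat.cast_sub h]

lemma aeU_point (C : ℝ) (k A : ℕ) (V : ℝ) : ∃ N2 : ℕ, ∀ b : ℕ → ℝ, ∀ N : ℕ, N2 ≤ N →
    (∀ n M : ℕ, N ≤ M → n < M → |b n| ≤ C * (Real.log (M + 2)) ^ k) →
    (∀ L : ℕ, ∑ M ∈ Finset.Icc N (N + L),
      (∑ n ∈ range M, b n) ^ 2 * ((Real.log M) ^ (3 * A + k + 2) / (M : ℝ) ^ 3) ≤ V) →
    |∑ n ∈ range N, b n| ≤ N / (Real.log N) ^ A := by
  have hl2 : 0 < Real.log 2 := Real.log_pos (by norm_num)
  have hlim : Tendsto (fun N : ℕ => Real.log (N : ℝ)) atTop atTop :=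
    Real.tendsto_log_atTop.comp tendsto_natCast_atTop_atTop
  have hev : ∀ᶠ N : ℕ in atTop, 4 ≤ N ∧ 1 ≤ Real.log (N : ℝ) ∧ C * 2 ^ (k + 2) ≤ Real.log (N : ℝ) ∧
      32 * V < Real.log (N : ℝ) := by
    filter_upwards [eventually_ge_atTop 4, hlim.eventually_ge_atTop 1,
      hlim.eventually_ge_atTop (C * 2 ^ (k + 2)), hlim.eventually_gt_atTop (32 * V)] with N h2 h3 h4 h5
    exact ⟨h2, h3, h4, h5⟩
  obtain ⟨N2, hN2⟩ := eventually_atTop.1 hev
  refine ⟨N2, fun b N hN hb hV => ?_⟩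
  obtain ⟨h2, h3, h4, h5⟩ := hN2 N hN
  by_contra hcon
  push Not at hcon
  set l : ℝ := Real.log (N : ℝ) with hl
  have hl0 : 0 < l := by linarith
  have hN0 : (0 : ℝ) < N := by exact_mod_cast (by omega : 0 < N)
  have hN4 : (4 : ℝ) ≤ N := by exact_mod_cast h2
  have hC : 0 ≤ C := by
    have h1 := (abs_nonneg _).trans (hb 0 N le_rfl (by omega))
    have h2 : 0 < (Real.log ((N : ℝ) + 2)) ^ k := by
      have : 0 < Real.log ((N : ℝ) + 2) := Real.log_pos (by linarith)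
      positivity
    by_contra h3
    push Not at h3
    have := mul_neg_of_neg_of_pos h3 h2
    linarith
  set K : ℕ := ⌊(N : ℝ) / l ^ (A + k + 1)⌋₊ with hK
  have hK1 : (K : ℝ) ≤ (N : ℝ) / l ^ (A + k + 1) := Nat.floor_le (by positivity)
  have hK2 : (N : ℝ) / l ^ (A + k + 1) < K + 1 := Nat.lt_floor_add_one _
  have hKN : (K : ℝ) ≤ N := by
    refine hK1.trans (div_le_self hN0.le ?_)
    exact one_le_pow₀ h3
  have hKN' : K ≤ N := by exact_mod_cast hKN
  have hlog2 : Real.log (2 * (N : ℝ) + 2) ≤ 2 * l := by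
    have : 2 * l = Real.log ((N : ℝ) ^ 2) := by rw [Real.log_pow]; push_cast; ring
    rw [this]
    apply Real.log_le_log (by positivity)
    nlinarith
  set B : ℝ := C * (2 * l) ^ k with hB
  have hB0 : 0 ≤ B := by positivity
  have hbB : ∀ M : ℕ, N ≤ M → M ≤ 2 * N → ∀ n, n < M → |b n| ≤ B := by
    intro M hNM hM n hn
    refine (hb n M hNM hn).trans ?_
    apply mul_le_mul_of_nonneg_left _ hC
    have hn' : (M : ℝ) ≤ 2 * N := by exact_mod_cast hM
    apply pow_le_pow_left₀ (Real.log_nonneg (by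
      have : (0 : ℝ) ≤ M := Nat.cast_nonneg M
      linarith))
    refine le_trans (Real.log_le_log (by positivity) (by linarith)) hlog2
  have hdiff : ∀ M ∈ Finset.Icc N (N + K), |∑ n ∈ range M, b n - ∑ n ∈ range N, b n| ≤ N / l ^ A / 2 := by
    intro M hM
    rw [Finset.mem_Icc] at hM
    have hM2 : M ≤ 2 * N := by omega
    have e2 := aeU_diff b B N M hM.1 (hbB M hM.1 hM2)
    have e5 : (M : ℝ) - N ≤ K := by
      have : (M : ℝ) ≤ N + K := by exact_mod_cast hM.2
      linarith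
    have e6 : |∑ n ∈ range M, b n - ∑ n ∈ range N, b n| ≤ 2 * K * B := by
      have f1 : ((M : ℝ) - N) * B ≤ K * B := mul_le_mul_of_nonneg_right e5 hB0
      have f2 : 0 ≤ (K : ℝ) * B := by positivity
      linarith
    refine e6.trans ?_
    have e7 : 2 * (K : ℝ) * B ≤ 2 * ((N : ℝ) / l ^ (A + k + 1)) * B := by gcongr
    refine e7.trans ?_
    have e8 : 2 * ((N : ℝ) / l ^ (A + k + 1)) * B = (C * 2 ^ (k + 2)) / l * (N / l ^ A / 2) := by
      rw [hB, mul_pow, pow_add, pow_add, pow_add]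
      field_simp
    rw [e8]
    have e9 : (C * 2 ^ (k + 2)) / l ≤ 1 := by rw [div_le_one hl0]; exact h4
    have e10 : 0 ≤ (N : ℝ) / l ^ A / 2 := by positivity
    calc (C * 2 ^ (k + 2)) / l * (N / l ^ A / 2) ≤ 1 * (N / l ^ A / 2) := mul_le_mul_of_nonneg_right e9 e10
      _ = N / l ^ A / 2 := one_mul _
  have hterm : ∀ M ∈ Finset.Icc N (N + K), l ^ (A + k + 2) / (32 * N) ≤
      (∑ n ∈ range M, b n) ^ 2 * ((Real.log M) ^ (3 * A + k + 2) / (M : ℝ) ^ 3) := by
    intro M hM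
    have g1 := hdiff M hM
    rw [Finset.mem_Icc] at hM
    have g2 : N / l ^ A / 2 ≤ |∑ n ∈ range M, b n| := by
      have := abs_sub_abs_le_abs_sub (∑ n ∈ range N, b n) (∑ n ∈ range M, b n)
      rw [abs_sub_comm] at this
      linarith
    have g3 : (N / l ^ A / 2) ^ 2 ≤ (∑ n ∈ range M, b n) ^ 2 := by
      rw [← sq_abs (∑ n ∈ range M, b n)]
      exact pow_le_pow_left₀ (by positivity) g2 2
    have hM0 : (N : ℝ) ≤ M := by exact_mod_cast hM.1
    have hM1 : (M : ℝ) ≤ 2 * N := by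
      have : (M : ℝ) ≤ N + K := by exact_mod_cast hM.2
      linarith
    have g4 : l ^ (3 * A + k + 2) ≤ (Real.log M) ^ (3 * A + k + 2) :=
      pow_le_pow_left₀ hl0.le (Real.log_le_log hN0 hM0) _
    have g5 : (M : ℝ) ^ 3 ≤ (2 * N) ^ 3 := pow_le_pow_left₀ (by linarith) hM1 3
    have hMpos : (0 : ℝ) < M := by linarith
    calc l ^ (A + k + 2) / (32 * N) = (N / l ^ A / 2) ^ 2 * (l ^ (3 * A + k + 2) / (2 * N) ^ 3) := by
          have : l ^ (3 * A + k + 2) = l ^ (A + k + 2) * (l ^ A) ^ 2 := by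
            rw [← pow_mul, ← pow_add]; congr 1; ring
          rw [this]
          field_simp
          ring
      _ ≤ (∑ n ∈ range M, b n) ^ 2 * ((Real.log M) ^ (3 * A + k + 2) / (M : ℝ) ^ 3) := by
          gcongr
  have hsum := Finset.sum_le_sum hterm
  rw [Finset.sum_const, Nat.card_Icc, nsmul_eq_mul] at hsum
  have hcard : ((N + K + 1 - N : ℕ) : ℝ) = K + 1 := by
    have : N + K + 1 - N = K + 1 := by omega
    rw [this]; push_cast; ring
  rw [hcard] at hsum
  have hfin := hsum.trans (hV K)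
  have hlow : l / 32 ≤ ((K : ℝ) + 1) * (l ^ (A + k + 2) / (32 * N)) := by
    calc l / 32 = ((N : ℝ) / l ^ (A + k + 1)) * (l ^ (A + k + 2) / (32 * N)) := by
          have : l ^ (A + k + 2) = l ^ (A + k + 1) * l := by rw [← pow_succ]
          rw [this]
          field_simp
      _ ≤ ((K : ℝ) + 1) * (l ^ (A + k + 2) / (32 * N)) := by
          apply mul_le_mul_of_nonneg_right hK2.le
          positivity
  linarith

open Classical in
/-- all admissible shifts -/
noncomputable def aeT (E k R : ℕ) : Finset (Fin k → ℕ) :=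
  (Fintype.piFinset fun _ : Fin k => range (⌊(Real.log R) ^ E⌋₊ + 1)).filter fun s => Sh E R s

lemma mem_aeT {E k R : ℕ} {s : Fin k → ℕ} : s ∈ aeT E k R ↔ Sh E R s := by
  classical
  unfold aeT
  rw [Finset.mem_filter]
  refine ⟨fun h => h.2, fun h => ⟨?_, h⟩⟩
  rw [Fintype.mem_piFinset]
  intro i
  rw [Finset.mem_range]
  exact Nat.lt_succ_of_le (Nat.le_floor (h.2 i))

lemma card_aeT {E k R : ℕ} (hR : 1 ≤ Real.log R) : ((aeT E k R).card : ℝ) ≤ 2 ^ k * (Real.log R) ^ (E * k) := by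
  classical
  have h1 : (aeT E k R).card ≤ (⌊(Real.log R) ^ E⌋₊ + 1) ^ k := by
    unfold aeT
    refine (Finset.card_filter_le _ _).trans ?_
    rw [Fintype.card_piFinset]
    simp
  have h2 : ((aeT E k R).card : ℝ) ≤ ((⌊(Real.log R) ^ E⌋₊ : ℝ) + 1) ^ k := by exact_mod_cast h1
  refine h2.trans ?_
  have h3 : (1 : ℝ) ≤ (Real.log R) ^ E := one_le_pow₀ hR
  have h4 : (⌊(Real.log R) ^ E⌋₊ : ℝ) ≤ (Real.log R) ^ E := Nat.floor_le (by linarith)
  rw [pow_mul, ← mul_pow]
  apply pow_le_pow_left₀ (by positivity)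
  linarith

lemma aeU_sh_mono {E R R' k : ℕ} (hR : 1 ≤ R) (h : R ≤ R') {s : Fin k → ℕ} (hs : Sh E R s) : Sh E R' s := by
  refine ⟨hs.1, fun i => (hs.2 i).trans ?_⟩
  have h1 : (1 : ℝ) ≤ R := by exact_mod_cast hR
  have h2 : (R : ℝ) ≤ R' := by exact_mod_cast h
  exact pow_le_pow_left₀ (Real.log_nonneg h1) (Real.log_le_log (by linarith) h2) _

theorem aeU {Ω : Type*} [MeasurableSpace Ω] (μ : Measure Ω) [IsProbabilityMeasure μ] (k : ℕ) (a : (Fin k → ℕ) → ℕ → Ω → ℝ)
    (ha : ∀ s n, Measurable (a s n)) (K : ℕ)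
    (hb : ∀ E : ℕ, ∃ C : ℝ, ∀ R n : ℕ, n < R → ∀ s : Fin k → ℕ, Sh E R s → ∀ᵐ ω ∂μ, |a s n ω| ≤ C * (Real.log (R + 2)) ^ K)
    (h2 : ∀ E A : ℕ, ∃ C : ℝ, ∀ᶠ R : ℕ in atTop, ∀ s : Fin k → ℕ, Sh E R s →
      ∫ ω, (∑ n ∈ range R, a s n ω) ^ 2 ∂μ ≤ C * (R : ℝ) ^ 2 / (Real.log R) ^ A) :
    ∀ᵐ ω ∂μ, ∀ E A : ℕ, ∃ C : ℝ, ∀ R : ℕ, 2 ≤ R → ∀ s : Fin k → ℕ, Sh E R s →
      |∑ n ∈ range R, a s n ω| ≤ C * R / (Real.log R) ^ A := by
  classical
  rw [ae_all_iff]
  intro E
  rw [ae_all_iff]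
  intro A
  obtain ⟨Cb, hCb⟩ := hb E
  obtain ⟨C2, hC2⟩ := h2 E (3 * A + K + 2 + (E * k + 2))
  obtain ⟨J0, hJ0⟩ := eventually_atTop.1 hC2
  set N1 : ℕ := J0 + 4 with hN1
  have h0' : ∀ᵐ ω ∂μ, ∀ (R n : ℕ) (s : Fin k → ℕ), n < R → Sh E R s →
      |a s n ω| ≤ Cb * (Real.log (R + 2)) ^ K := by
    refine ae_all_iff.2 fun R => ae_all_iff.2 fun n => ae_all_iff.2 fun s => ?_
    by_cases h : n < R ∧ Sh E R s
    · filter_upwards [hCb R n h.1 s h.2] with ω hω _ _
      exact hω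
    · exact Filter.Eventually.of_forall fun ω h3 h4 => absurd ⟨h3, h4⟩ h
  set G : ℕ → Ω → ℝ := fun N ω => ∑ s ∈ aeT E k N, (∑ n ∈ range N, a s n ω) ^ 2 with hG
  have hmS : ∀ (N : ℕ) (s : Fin k → ℕ), Measurable (fun ω => (∑ n ∈ range N, a s n ω) ^ 2) := by
    intro N s
    exact (Finset.measurable_fun_sum _ (fun n _ => ha _ _)).pow_const 2
  have hmG : ∀ N : ℕ, Measurable (G N) := by
    intro N
    exact Finset.measurable_fun_sum _ (fun s _ => hmS N s)
  set F : ℕ → Ω → ℝ := fun N ω => if N1 ≤ N then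
    G N ω * ((Real.log N) ^ (3 * A + K + 2) / (N : ℝ) ^ 3) else 0 with hF
  have hFm : ∀ N, Measurable (F N) := by
    intro N
    rw [hF]
    by_cases hN : N1 ≤ N
    · simp only [hN, if_true]
      exact (hmG N).mul_const _
    · simp only [hN, if_false]
      exact measurable_const
  have hG0 : ∀ N ω, 0 ≤ G N ω := fun N ω => Finset.sum_nonneg fun s _ => sq_nonneg _
  have hF0 : ∀ N ω, 0 ≤ F N ω := by
    intro N ω
    rw [hF]
    by_cases hN : N1 ≤ N
    · simp only [hN, if_true]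
      have : 0 ≤ Real.log (N : ℝ) := Real.log_natCast_nonneg N
      have := hG0 N ω
      positivity
    · simp only [hN, if_false]
      exact le_rfl
  set D : ℝ := |C2| * 2 ^ k * 4 with hD
  have hbound : ∀ N, ∫⁻ ω, ENNReal.ofReal (F N ω) ∂μ ≤
      ENNReal.ofReal (D * (1 / ((N : ℝ) * (Real.log ((N : ℝ) + 1)) ^ 2))) := by
    intro N
    by_cases hN : N1 ≤ N
    · have hN4 : (4 : ℝ) ≤ N := by exact_mod_cast (by omega : 4 ≤ N)
      have hNpos : (0 : ℝ) < N := by linarith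
      have hl1 : 1 ≤ Real.log (N : ℝ) := by
        rw [Real.le_log_iff_exp_le hNpos]
        have := Real.exp_one_lt_d9
        linarith
      have hl0 : 0 < Real.log (N : ℝ) := by linarith
      have hintS : ∀ s ∈ aeT E k N, Integrable (fun ω => (∑ n ∈ range N, a s n ω) ^ 2) μ := by
        intro s hs
        have hs' := mem_aeT.1 hs
        refine Integrable.of_bound (hmS N s).aestronglyMeasurable
          ((∑ n ∈ range N, Cb * (Real.log (N + 2)) ^ K) ^ 2) ?_
        filter_upwards [h0'] with ω hω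
        rw [Real.norm_eq_abs, abs_pow]
        refine pow_le_pow_left₀ (abs_nonneg _) ?_ 2
        refine (Finset.abs_sum_le_sum_abs _ _).trans ?_
        exact Finset.sum_le_sum fun n hn => hω N n s (Finset.mem_range.1 hn) hs'
      have hint : Integrable (G N) μ := integrable_finsetSum _ hintS
      have hFN : F N = fun ω => G N ω *
          ((Real.log N) ^ (3 * A + K + 2) / (N : ℝ) ^ 3) := by
        rw [hF]
        funext ω
        simp only [hN, if_true]
      have hintF : Integrable (F N) μ := by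
        rw [hFN]
        exact hint.mul_const _
      rw [← ofReal_integral_eq_lintegral_ofReal hintF (Filter.Eventually.of_forall (hF0 N))]
      apply ENNReal.ofReal_le_ofReal
      rw [hFN, integral_mul_const]
      have hGint : ∫ ω, G N ω ∂μ ≤ (2 ^ k * (Real.log N) ^ (E * k)) *
          (|C2| * (N : ℝ) ^ 2 / (Real.log N) ^ (3 * A + K + 2 + (E * k + 2))) := by
        rw [hG]
        simp only
        rw [integral_finsetSum _ hintS]
        have hone : ∀ s ∈ aeT E k N, ∫ ω, (∑ n ∈ range N, a s n ω) ^ 2 ∂μ ≤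
            |C2| * (N : ℝ) ^ 2 / (Real.log N) ^ (3 * A + K + 2 + (E * k + 2)) := by
          intro s hs
          refine (hJ0 N (by omega) s (mem_aeT.1 hs)).trans ?_
          gcongr
          exact le_abs_self C2
        refine (Finset.sum_le_card_nsmul _ _ _ hone).trans ?_
        rw [nsmul_eq_mul]
        exact mul_le_mul_of_nonneg_right (card_aeT hl1) (by positivity)
      have hlog1 : Real.log ((N : ℝ) + 1) ≤ 2 * Real.log N := by
        have : 2 * Real.log (N : ℝ) = Real.log ((N : ℝ) ^ 2) := by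
          rw [Real.log_pow]; push_cast; ring
        rw [this]
        apply Real.log_le_log (by linarith)
        nlinarith
      have hlog0 : 0 < Real.log ((N : ℝ) + 1) := Real.log_pos (by linarith)
      have s2 := mul_le_mul_of_nonneg_right hGint
        (by positivity : 0 ≤ (Real.log N) ^ (3 * A + K + 2) / (N : ℝ) ^ 3)
      refine s2.trans ?_
      have s3 : (2 ^ k * (Real.log N) ^ (E * k)) *
          (|C2| * (N : ℝ) ^ 2 / (Real.log N) ^ (3 * A + K + 2 + (E * k + 2))) *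
            ((Real.log N) ^ (3 * A + K + 2) / (N : ℝ) ^ 3) =
          |C2| * 2 ^ k * (1 / ((N : ℝ) * (Real.log N) ^ 2)) := by
        rw [pow_add (Real.log (N : ℝ)) (3 * A + K + 2) (E * k + 2), pow_add (Real.log (N : ℝ)) (E * k) 2]
        field_simp
      rw [s3, hD]
      have s4 : 1 / ((N : ℝ) * (Real.log N) ^ 2) ≤ 4 * (1 / ((N : ℝ) * (Real.log ((N : ℝ) + 1)) ^ 2)) := by
        rw [← mul_div_assoc, div_le_div_iff₀ (by positivity) (by positivity)]
        have : (Real.log ((N : ℝ) + 1)) ^ 2 ≤ (2 * Real.log N) ^ 2 := pow_le_pow_left₀ hlog0.le hlog1 2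
        nlinarith [mul_le_mul_of_nonneg_left this hNpos.le]
      calc |C2| * 2 ^ k * (1 / ((N : ℝ) * (Real.log N) ^ 2)) ≤
            |C2| * 2 ^ k * (4 * (1 / ((N : ℝ) * (Real.log ((N : ℝ) + 1)) ^ 2))) :=
            mul_le_mul_of_nonneg_left s4 (by positivity)
        _ = |C2| * 2 ^ k * 4 * (1 / ((N : ℝ) * (Real.log ((N : ℝ) + 1)) ^ 2)) := by ring
    · have : F N = fun _ => 0 := by
        rw [hF]; funext ω; simp only [hN, if_false]
      rw [this]
      simp
  have hD0 : 0 ≤ D := by positivity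
  have htot : ∫⁻ ω, ∑' N, ENNReal.ofReal (F N ω) ∂μ ≠ ⊤ := by
    rw [lintegral_tsum (fun N => ((hFm N).ennreal_ofReal).aemeasurable)]
    refine ne_top_of_le_ne_top ?_ (ENNReal.tsum_le_tsum hbound)
    exact (aeU_summ.mul_left D).tsum_ofReal_ne_top
  have hae := ae_lt_top' (Measurable.aemeasurable
    (Measurable.tsum (fun N => (hFm N).ennreal_ofReal))) htot
  filter_upwards [h0', hae] with ω hω hfin
  obtain ⟨N2, hN2⟩ := aeU_point Cb K A (∑' N, ENNReal.ofReal (F N ω)).toReal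
  have hlarge : ∀ N : ℕ, max N1 N2 ≤ N → ∀ s : Fin k → ℕ, Sh E N s →
      |∑ n ∈ range N, a s n ω| ≤ N / (Real.log N) ^ A := by
    intro N hN s hs
    have hNN1 : N1 ≤ N := (le_max_left _ _).trans hN
    refine hN2 (fun n => a s n ω) N ((le_max_right _ _).trans hN) ?_ ?_
    · intro n M hNM hn
      exact hω M n s hn (aeU_sh_mono (by omega) hNM hs)
    · intro L
      have e1 : ∑ M ∈ Finset.Icc N (N + L), (∑ n ∈ range M, a s n ω) ^ 2 *
          ((Real.log M) ^ (3 * A + K + 2) / (M : ℝ) ^ 3) ≤ ∑ M ∈ Finset.Icc N (N + L), F M ω := by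
        apply Finset.sum_le_sum
        intro M hM
        rw [Finset.mem_Icc] at hM
        rw [hF]
        simp only [hNN1.trans hM.1, if_true]
        have : 0 ≤ Real.log (M : ℝ) := Real.log_natCast_nonneg M
        apply mul_le_mul_of_nonneg_right _ (by positivity)
        exact Finset.single_le_sum (f := fun s : Fin k → ℕ => (∑ n ∈ range M, a s n ω) ^ 2)
          (fun s _ => sq_nonneg _) (mem_aeT.2 (aeU_sh_mono (by omega) hM.1 hs))
      refine e1.trans ?_
      have e2 : ENNReal.ofReal (∑ M ∈ Finset.Icc N (N + L), F M ω) ≤ ∑' N, ENNReal.ofReal (F N ω) := by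
        rw [ENNReal.ofReal_sum_of_nonneg (fun M _ => hF0 M ω)]
        exact ENNReal.sum_le_tsum _
      exact (ENNReal.ofReal_le_iff_le_toReal hfin.ne).1 e2
  refine ⟨1 + ∑ R ∈ range (max N1 N2), ∑ s ∈ aeT E k R, |∑ n ∈ range R, a s n ω| * |(Real.log R) ^ A|,
    fun R hR s hs => ?_⟩
  have hR2 : (2 : ℝ) ≤ R := by exact_mod_cast hR
  have hlR : 0 < Real.log (R : ℝ) := Real.log_pos (by linarith)
  have hlA : 0 < (Real.log (R : ℝ)) ^ A := by positivity
  have hnn : ∀ R : ℕ, 0 ≤ ∑ s ∈ aeT E k R, |∑ n ∈ range R, a s n ω| * |(Real.log R) ^ A| := fun R =>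
    Finset.sum_nonneg fun s _ => by positivity
  have hnn' : 0 ≤ ∑ R ∈ range (max N1 N2), ∑ s ∈ aeT E k R, |∑ n ∈ range R, a s n ω| * |(Real.log R) ^ A| :=
    Finset.sum_nonneg fun R _ => hnn R
  rw [le_div_iff₀ hlA]
  rcases Nat.lt_or_ge R (max N1 N2) with hlt | hge
  · have h1 : |∑ n ∈ range R, a s n ω| * |(Real.log R) ^ A| ≤
        ∑ s ∈ aeT E k R, |∑ n ∈ range R, a s n ω| * |(Real.log R) ^ A| :=
      Finset.single_le_sum (f := fun s : Fin k → ℕ => |∑ n ∈ range R, a s n ω| * |(Real.log R) ^ A|)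
        (fun s _ => by positivity) (mem_aeT.2 hs)
    have h3 : ∑ s ∈ aeT E k R, |∑ n ∈ range R, a s n ω| * |(Real.log R) ^ A| ≤
        ∑ R ∈ range (max N1 N2), ∑ s ∈ aeT E k R, |∑ n ∈ range R, a s n ω| * |(Real.log R) ^ A| :=
      Finset.single_le_sum (f := fun R : ℕ => ∑ s ∈ aeT E k R, |∑ n ∈ range R, a s n ω| * |(Real.log R) ^ A|)
        (fun R _ => hnn R) (Finset.mem_range.2 hlt)
    have h5 : |∑ n ∈ range R, a s n ω| * (Real.log R) ^ A = |∑ n ∈ range R, a s n ω| * |(Real.log R) ^ A| := by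
      rw [abs_of_pos hlA]
    rw [h5]
    refine (h1.trans h3).trans ?_
    nlinarith
  · have h1 := hlarge R hge s hs
    rw [le_div_iff₀ hlA] at h1
    nlinarith

end TN7

end Pool.Agent.helper616_TN
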