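import Pool.Agent.helper616_TN.Defs

/-!
# Project TN (helper616): factorial moments
-/

set_option autoImplicit false
set_option maxHeartbeats 4000000

open Finset MeasureTheory Filter Topology
open Pool.Agent.helper616_RP (th)
open Pool.Agent.helper616_TS (LogBdd)
open Pool.Agent.helper616_TM (val Q nodes)

namespace Pool.Agent.helper616_TN

namespace TN8


noncomputable def ind {m : ℕ} (ω : Fin m → ℝ) (n i : ℕ) : ℝ :=
  if (⌊val ω (n + i)⌋₊).Prime then 1 else 0

lemma card_inj (k : ℕ) (T : Finset ℕ) :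
    ((Fintype.piFinset (fun _ : Fin k => T)).filter Function.Injective).card =
      T.card.descFactorial k := by
  have h := Fintype.card_embedding_eq (α := Fin k) (β := T)
  rw [Fintype.card_fin, Fintype.card_coe] at h
  rw [← h, ← Finset.card_univ]
  symm
  refine Finset.card_bij (fun f _ => fun i => ((f i : T) : ℕ)) ?_ ?_ ?_
  · intro f _
    rw [Finset.mem_filter, Fintype.mem_piFinset]
    exact ⟨fun i => (f i).2, fun a b hab => f.injective (Subtype.ext hab)⟩
  · intro f _ g _ hfg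
    ext i
    exact congrFun hfg i
  · intro s hs
    rw [Finset.mem_filter, Fintype.mem_piFinset] at hs
    exact ⟨⟨fun i => ⟨s i, hs.1 i⟩, fun a b hab => hs.2 (Subtype.mk.inj hab)⟩,
      Finset.mem_univ _, rfl⟩

lemma desc_eq (k L : ℕ) (P : ℕ → Prop) [DecidablePred P] :
    ((((Icc 1 L).filter P).card.descFactorial k : ℕ) : ℝ) =
      ∑ s ∈ (Fintype.piFinset (fun _ : Fin k => Icc 1 L)).filter Function.Injective,
        ∏ i, (if P (s i) then (1 : ℝ) else 0) := by
  rw [← card_inj]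
  have h0 : ∀ s : Fin k → ℕ, (∏ i, (if P (s i) then (1 : ℝ) else 0)) =
      if ∀ i, P (s i) then 1 else 0 := by
    intro s
    rw [Finset.prod_boole]
    simp
  rw [Finset.sum_congr rfl (fun s _ => h0 s), ← Finset.sum_filter, Finset.sum_const,
    nsmul_eq_mul, mul_one]
  congr 2
  ext s
  simp only [Finset.mem_filter, Fintype.mem_piFinset]
  constructor
  · rintro ⟨h1, h2⟩
    exact ⟨⟨fun i => (h1 i).1, h2⟩, fun i => (h1 i).2⟩
  · rintro ⟨⟨h1, h2⟩, h3⟩
    exact ⟨fun i => ⟨h1 i, h3 i⟩, h2⟩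

lemma val_upper {m : ℕ} (ω : Fin (m + 1) → ℝ) :
    ∃ M : ℝ, 1 ≤ M ∧ ∀ x : ℕ, 1 ≤ x → val ω x ≤ M * (x : ℝ) ^ m := by
  refine ⟨∑ k, |ω k| + 1, ?_, fun x hx => ?_⟩
  · have := Finset.sum_nonneg (fun k (_ : k ∈ univ) => abs_nonneg (ω k))
    linarith
  have hx' : (1 : ℝ) ≤ x := by exact_mod_cast hx
  unfold Pool.Agent.helper616_TM.val
  calc ∑ k, ω k * (x : ℝ) ^ (k : ℕ) ≤ ∑ k, |ω k| * (x : ℝ) ^ m := by
        refine Finset.sum_le_sum (fun k _ => ?_)
        have h1 : (x : ℝ) ^ (k : ℕ) ≤ (x : ℝ) ^ m := pow_le_pow_right₀ hx' (by have := k.2; omega)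
        have h2 : 0 ≤ (x : ℝ) ^ (k : ℕ) := by positivity
        calc ω k * (x : ℝ) ^ (k : ℕ) ≤ |ω k| * (x : ℝ) ^ (k : ℕ) :=
              mul_le_mul_of_nonneg_right (le_abs_self _) h2
          _ ≤ |ω k| * (x : ℝ) ^ m := mul_le_mul_of_nonneg_left h1 (abs_nonneg _)
    _ = (∑ k, |ω k|) * (x : ℝ) ^ m := by rw [Finset.sum_mul]
    _ ≤ (∑ k, |ω k| + 1) * (x : ℝ) ^ m := by
        have : 0 ≤ (x : ℝ) ^ m := by positivity
        nlinarith

lemma val_lower {m : ℕ} (hm : 1 ≤ m) (ω : Fin (m + 1) → ℝ) (hω : 0 < ω (Fin.last m)) :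
    ∃ δ : ℝ, 0 < δ ∧ ∃ x₀ : ℕ, ∀ x : ℕ, x₀ ≤ x → δ * (x : ℝ) ^ m ≤ val ω x := by
  obtain ⟨m', rfl⟩ : ∃ m', m = m' + 1 := ⟨m - 1, by omega⟩
  set c := ω (Fin.last (m' + 1)) with hc
  set S := ∑ k : Fin (m' + 1), |ω k.castSucc| with hS
  have hS0 : 0 ≤ S := Finset.sum_nonneg (fun k _ => abs_nonneg _)
  obtain ⟨x₀, hx₀⟩ := exists_nat_ge (2 * S / c + 1)
  refine ⟨c / 2, by linarith, x₀, fun x hx => ?_⟩
  have hx1 : 2 * S / c + 1 ≤ x := hx₀.trans (by exact_mod_cast hx)
  have hx2 : 1 ≤ (x : ℝ) := by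
    have : 0 ≤ 2 * S / c := by positivity
    linarith
  have hx3 : 2 * S ≤ c * x := by
    have : 2 * S / c ≤ x := by linarith
    rw [div_le_iff₀ hω] at this
    linarith [mul_comm (x : ℝ) c]
  unfold Pool.Agent.helper616_TM.val
  rw [Fin.sum_univ_castSucc]
  have h1 : -(S * (x : ℝ) ^ m') ≤
      ∑ k : Fin (m' + 1), ω k.castSucc * (x : ℝ) ^ (k.castSucc : ℕ) := by
    rw [hS, Finset.sum_mul, ← Finset.sum_neg_distrib]
    refine Finset.sum_le_sum (fun k _ => ?_)
    have h1 : (x : ℝ) ^ (k : ℕ) ≤ (x : ℝ) ^ m' := pow_le_pow_right₀ hx2 (by have := k.2; omega)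
    have h2 : 0 ≤ (x : ℝ) ^ (k : ℕ) := by positivity
    have h3 : -|ω k.castSucc| ≤ ω k.castSucc := neg_abs_le _
    have h4 : ((k.castSucc : Fin (m' + 1 + 1)) : ℕ) = k := rfl
    rw [h4]
    calc -(|ω k.castSucc| * (x : ℝ) ^ m') ≤ -(|ω k.castSucc| * (x : ℝ) ^ (k : ℕ)) :=
          neg_le_neg (mul_le_mul_of_nonneg_left h1 (abs_nonneg _))
      _ = (-|ω k.castSucc|) * (x : ℝ) ^ (k : ℕ) := by ring
      _ ≤ ω k.castSucc * (x : ℝ) ^ (k : ℕ) := mul_le_mul_of_nonneg_right h3 h2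
  have h2 : (x : ℝ) ^ (m' + 1) = x * (x : ℝ) ^ m' := by ring
  have h4 : ((Fin.last (m' + 1) : Fin (m' + 1 + 1)) : ℕ) = m' + 1 := rfl
  rw [h4, h2, ← hc]
  have h3 : 0 ≤ (x : ℝ) ^ m' := by positivity
  nlinarith [mul_le_mul_of_nonneg_right hx3 h3]

lemma tend_desc (k : ℕ) (l : ℝ) (L : ℕ → ℕ) (y : ℕ → ℝ) (hy : Tendsto y atTop atTop)
    (hL : Tendsto (fun N : ℕ => (L N : ℝ) / y N) atTop (𝓝 l)) :
    Tendsto (fun N : ℕ => (((L N).descFactorial k : ℕ) : ℝ) / (y N) ^ k) atTop (𝓝 (l ^ k)) := by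
  have h1 : ∀ j : ℕ, Tendsto (fun N : ℕ => ((L N - j : ℕ) : ℝ) / y N) atTop (𝓝 l) := by
    intro j
    have h2 : Tendsto (fun N : ℕ => (L N : ℝ) / y N - j / y N) atTop (𝓝 (l - 0)) :=
      hL.sub (hy.const_div_atTop _)
    rw [sub_zero] at h2
    refine tendsto_of_tendsto_of_tendsto_of_le_of_le' h2 hL ?_ ?_
    · filter_upwards [hy.eventually_gt_atTop 0] with N hN
      rw [← sub_div]
      refine div_le_div_of_nonneg_right ?_ hN.le
      rcases le_total j (L N) with h | h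
      · rw [Nat.cast_sub h]
      · rw [Nat.sub_eq_zero_of_le h]
        have : (L N : ℝ) ≤ j := by exact_mod_cast h
        simpa using this
    · filter_upwards [hy.eventually_gt_atTop 0] with N hN
      refine div_le_div_of_nonneg_right ?_ hN.le
      exact_mod_cast Nat.sub_le _ _
  have h2 : (fun N : ℕ => (((L N).descFactorial k : ℕ) : ℝ) / (y N) ^ k) =
      fun N => ∏ j ∈ range k, (((L N - j : ℕ) : ℝ) / y N) := by
    funext N
    rw [Nat.descFactorial_eq_prod_range, Finset.prod_div_distrib, Finset.prod_const,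
      Finset.card_range]
    push_cast
    rfl
  rw [h2]
  have h3 : l ^ k = ∏ j ∈ range k, l := by simp
  rw [h3]
  exact tendsto_finsetProd _ (fun j _ => h1 j)

/-- the inequality for one `N` -/
lemma one_N {m : ℕ} (ω : Fin (m + 1) → ℝ) (k N L : ℕ) (A B N1 C ℓ : ℝ) (hA : 0 < A) (hB : 0 < B)
    (hN1 : 0 ≤ N1)
    (hup : ∀ n, n < N → ∀ i ∈ Icc 1 L, th ⌊val ω (n + i)⌋₊ ≤ B * ind ω n i)
    (hlo : ∀ n, n < N → N1 ≤ (n : ℝ) → ∀ i ∈ Icc 1 L, A * ind ω n i ≤ th ⌊val ω (n + i)⌋₊)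
    (hC : ∀ s : Fin k → ℕ, Function.Injective s → (∀ i, s i ∈ Icc 1 L) →
      |∑ n ∈ range N, (tupB (fun _ => th) s n ω - 1)| ≤ C * N / ℓ) :
    (L.descFactorial k : ℝ) * (N - C * N / ℓ) / B ^ k ≤
      ∑ n ∈ range N, ((((Icc 1 L).filter (fun i => (⌊val ω (n + i)⌋₊).Prime)).card.descFactorial k : ℕ) : ℝ) ∧
    ∑ n ∈ range N, ((((Icc 1 L).filter (fun i => (⌊val ω (n + i)⌋₊).Prime)).card.descFactorial k : ℕ) : ℝ) ≤
      (L.descFactorial k : ℝ) * ((N1 + 1) + (N + C * N / ℓ) / A ^ k) := by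
  set G := (Fintype.piFinset (fun _ : Fin k => Icc 1 L)).filter Function.Injective with hG
  have hGc : (G.card : ℝ) = L.descFactorial k := by
    rw [hG, card_inj]; simp
  have hsum : ∑ n ∈ range N, ((((Icc 1 L).filter (fun i => (⌊val ω (n + i)⌋₊).Prime)).card.descFactorial k : ℕ) : ℝ) =
      ∑ s ∈ G, ∑ n ∈ range N, ∏ i, ind ω n (s i) := by
    rw [Finset.sum_comm]
    refine Finset.sum_congr rfl (fun n _ => ?_)
    exact desc_eq k L (fun i => (⌊val ω (n + i)⌋₊).Prime)
  have hmem : ∀ s ∈ G, Function.Injective s ∧ ∀ i, s i ∈ Icc 1 L := by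
    intro s hs
    rw [hG, Finset.mem_filter, Fintype.mem_piFinset] at hs
    exact ⟨hs.2, hs.1⟩
  have hind0 : ∀ n i, 0 ≤ ind ω n i := by
    intro n i; unfold ind; split_ifs <;> norm_num
  have hind1 : ∀ n i, ind ω n i ≤ 1 := by
    intro n i; unfold ind; split_ifs <;> norm_num
  have hth0 : ∀ n, 0 ≤ th n := by
    intro n; unfold th; split_ifs with h
    · exact Real.log_nonneg (by exact_mod_cast h.one_lt.le)
    · exact le_rfl
  have hT : ∀ s ∈ G, |∑ n ∈ range N, tupB (fun _ => th) s n ω - N| ≤ C * N / ℓ := by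
    intro s hs
    have := hC s (hmem s hs).1 (hmem s hs).2
    rwa [Finset.sum_sub_distrib, Finset.sum_const, Finset.card_range, nsmul_eq_mul, mul_one] at this
  have htup : ∀ (s : Fin k → ℕ) (n : ℕ), tupB (fun _ => th) s n ω = ∏ i, th ⌊val ω (n + s i)⌋₊ := by
    intro s n
    unfold tupB
    refine Finset.prod_congr rfl (fun i _ => ?_)
    push_cast
    rfl
  have hup2 : ∀ s ∈ G, ∀ n, n < N → tupB (fun _ => th) s n ω ≤ B ^ k * ∏ i, ind ω n (s i) := by
    intro s hs n hn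
    rw [htup]
    calc ∏ i, th ⌊val ω (n + s i)⌋₊ ≤ ∏ i : Fin k, (B * ind ω n (s i)) :=
          Finset.prod_le_prod (fun i _ => hth0 _) (fun i _ => hup n hn _ ((hmem s hs).2 i))
      _ = B ^ k * ∏ i, ind ω n (s i) := by
          rw [Finset.prod_mul_distrib, Finset.prod_const, Finset.card_univ, Fintype.card_fin]
  have hlo2 : ∀ s ∈ G, ∀ n, n < N → N1 ≤ (n : ℝ) →
      A ^ k * ∏ i, ind ω n (s i) ≤ tupB (fun _ => th) s n ω := by
    intro s hs n hn hn1
    rw [htup]
    calc A ^ k * ∏ i, ind ω n (s i) = ∏ i : Fin k, (A * ind ω n (s i)) := by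
          rw [Finset.prod_mul_distrib, Finset.prod_const, Finset.card_univ, Fintype.card_fin]
      _ ≤ ∏ i, th ⌊val ω (n + s i)⌋₊ :=
          Finset.prod_le_prod (fun i _ => mul_nonneg hA.le (hind0 _ _))
            (fun i _ => hlo n hn hn1 _ ((hmem s hs).2 i))
  have hprod0 : ∀ (s : Fin k → ℕ) (n : ℕ), 0 ≤ ∏ i, ind ω n (s i) :=
    fun s n => Finset.prod_nonneg (fun i _ => hind0 _ _)
  have hprod1 : ∀ (s : Fin k → ℕ) (n : ℕ), ∏ i, ind ω n (s i) ≤ 1 :=
    fun s n => Finset.prod_le_one (fun i _ => hind0 _ _) (fun i _ => hind1 _ _)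
  have htup0 : ∀ (s : Fin k → ℕ) (n : ℕ), 0 ≤ tupB (fun _ => th) s n ω := by
    intro s n; rw [htup]; exact Finset.prod_nonneg (fun i _ => hth0 _)
  have hBk : 0 < B ^ k := pow_pos hB k
  have hAk : 0 < A ^ k := pow_pos hA k
  rw [hsum, ← hGc]
  constructor
  · have h1 : ∀ s ∈ G, (N - C * N / ℓ) / B ^ k ≤ ∑ n ∈ range N, ∏ i, ind ω n (s i) := by
      intro s hs
      rw [div_le_iff₀ hBk]
      have h2 : ∑ n ∈ range N, tupB (fun _ => th) s n ω ≤
          (∑ n ∈ range N, ∏ i, ind ω n (s i)) * B ^ k := by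
        rw [Finset.sum_mul]
        refine Finset.sum_le_sum (fun n hn => ?_)
        rw [mul_comm]
        exact hup2 s hs n (Finset.mem_range.1 hn)
      have h3 := (abs_le.1 (hT s hs)).1
      linarith
    calc (G.card : ℝ) * (N - C * N / ℓ) / B ^ k = ∑ s ∈ G, (N - C * N / ℓ) / B ^ k := by
          rw [Finset.sum_const, nsmul_eq_mul]; ring
      _ ≤ _ := Finset.sum_le_sum h1
  · have h1 : ∀ s ∈ G, ∑ n ∈ range N, ∏ i, ind ω n (s i) ≤
        (N1 + 1) + (N + C * N / ℓ) / A ^ k := by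
      intro s hs
      have h2 : ∀ n ∈ range N, ∏ i, ind ω n (s i) ≤
          (if (n : ℝ) < N1 then (1 : ℝ) else 0) + tupB (fun _ => th) s n ω / A ^ k := by
        intro n hn
        have h5 : 0 ≤ tupB (fun _ => th) s n ω / A ^ k := div_nonneg (htup0 s n) hAk.le
        split_ifs with h
        · have := hprod1 s n
          linarith
        · rw [zero_add, le_div_iff₀ hAk, mul_comm]
          exact hlo2 s hs n (Finset.mem_range.1 hn) (not_lt.1 h)
      have h3 : ∑ n ∈ range N, (if (n : ℝ) < N1 then (1 : ℝ) else 0) ≤ N1 + 1 := by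
        rw [← Finset.sum_filter, Finset.sum_const, nsmul_eq_mul, mul_one]
        have h6 : (range N).filter (fun n : ℕ => (n : ℝ) < N1) ⊆ range (⌊N1⌋₊ + 1) := by
          intro n hn
          rw [Finset.mem_filter] at hn
          rw [Finset.mem_range]
          have : n ≤ ⌊N1⌋₊ := Nat.le_floor hn.2.le
          omega
        have h7 := Finset.card_le_card h6
        rw [Finset.card_range] at h7
        have h8 : ((⌊N1⌋₊ : ℕ) : ℝ) ≤ N1 := Nat.floor_le hN1
        have h9 : (((range N).filter (fun n : ℕ => (n : ℝ) < N1)).card : ℝ) ≤ (⌊N1⌋₊ : ℝ) + 1 := by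
          exact_mod_cast h7
        linarith
      have h4 := (abs_le.1 (hT s hs)).2
      calc ∑ n ∈ range N, ∏ i, ind ω n (s i)
          ≤ ∑ n ∈ range N, ((if (n : ℝ) < N1 then (1 : ℝ) else 0) + tupB (fun _ => th) s n ω / A ^ k) :=
            Finset.sum_le_sum h2
        _ = ∑ n ∈ range N, (if (n : ℝ) < N1 then (1 : ℝ) else 0) +
            (∑ n ∈ range N, tupB (fun _ => th) s n ω) / A ^ k := by
            rw [Finset.sum_add_distrib, Finset.sum_div]
        _ ≤ (N1 + 1) + (N + C * N / ℓ) / A ^ k := by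
            refine add_le_add h3 (div_le_div_of_nonneg_right ?_ hAk.le)
            linarith
    calc ∑ s ∈ G, ∑ n ∈ range N, ∏ i, ind ω n (s i)
        ≤ ∑ s ∈ G, ((N1 + 1) + (N + C * N / ℓ) / A ^ k) := Finset.sum_le_sum h1
      _ = (G.card : ℝ) * ((N1 + 1) + (N + C * N / ℓ) / A ^ k) := by
          rw [Finset.sum_const, nsmul_eq_mul]

lemma log_tend : Tendsto (fun N : ℕ => Real.log N) atTop atTop :=
  Real.tendsto_log_atTop.comp tendsto_natCast_atTop_atTop

lemma log_pow_div (j : ℕ) : Tendsto (fun N : ℕ => (Real.log N) ^ j / (N : ℝ)) atTop (𝓝 0) := by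
  have h := (Real.isLittleO_pow_log_id_atTop (n := j)).tendsto_div_nhds_zero
  exact h.comp tendsto_natCast_atTop_atTop

lemma loglog_div : Tendsto (fun N : ℕ => Real.log (Real.log N) / Real.log N) atTop (𝓝 0) := by
  have h := (Real.isLittleO_log_id_atTop).tendsto_div_nhds_zero
  exact h.comp log_tend

lemma y_tend (j : ℕ) : Tendsto (fun N : ℕ => (N : ℝ) / (Real.log N) ^ j) atTop atTop := by
  rw [tendsto_atTop]
  intro b
  have h1 := (log_pow_div j).eventually (gt_mem_nhds (show (0 : ℝ) < 1 / (|b| + 1) by positivity))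
  filter_upwards [h1, log_tend.eventually_ge_atTop 1, eventually_ge_atTop 1] with N h2 h3 h4
  have h5 : (0 : ℝ) < (Real.log N) ^ j := by positivity
  have h6 : (0 : ℝ) < N := by exact_mod_cast h4
  have h7 : (0 : ℝ) < |b| + 1 := by positivity
  rw [div_lt_div_iff₀ h6 h7] at h2
  rw [le_div_iff₀ h5]
  nlinarith [le_abs_self b]

theorem poisson {m : ℕ} (hm : 1 ≤ m) (ω : Fin (m + 1) → ℝ) (hω : 0 < ω (Fin.last m)) (k : ℕ)
    (h : ∀ E A : ℕ, ∃ C : ℝ, ∀ R : ℕ, 2 ≤ R → ∀ s : Fin k → ℕ, Sh E R s →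
      |∑ n ∈ range R, (tupB (fun _ => th) s n ω - 1)| ≤ C * R / (Real.log R) ^ A)
    (l : ℝ) (L : ℕ → ℕ) (hL : Tendsto (fun N : ℕ => (L N : ℝ) / (m * Real.log N)) atTop (𝓝 l)) :
    Tendsto (fun N : ℕ => (∑ n ∈ range N, ((((Icc 1 (L N)).filter (fun i => (⌊val ω (n + i)⌋₊).Prime)).card.descFactorial k : ℕ) : ℝ)) / N)
      atTop (𝓝 (l ^ k)) := by
  obtain ⟨M, hM1, hMu⟩ := val_upper ω
  obtain ⟨δ, hδ, x₀, hx₀⟩ := val_lower hm ω hω
  obtain ⟨C, hC⟩ := h 2 1
  have hm0 : (0 : ℝ) < m := by exact_mod_cast hm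
  have hlt := log_tend
  have hmlt : Tendsto (fun N : ℕ => (m : ℝ) * Real.log N) atTop atTop := hlt.const_mul_atTop hm0
  set A : ℕ → ℝ := fun N => m * Real.log N + (Real.log (δ / 2) - m * ((k + 1) * Real.log (Real.log N))) with hAdef
  set B : ℕ → ℝ := fun N => m * Real.log N + (Real.log M + m * Real.log 2) with hBdef
  have hA1 : Tendsto (fun N => A N / (m * Real.log N)) atTop (𝓝 1) := by
    have h1 : Tendsto (fun N : ℕ => 1 + (Real.log (δ / 2) / (m * Real.log N) -
        (k + 1) * (Real.log (Real.log N) / Real.log N))) atTop (𝓝 (1 + (0 - (k + 1) * 0))) :=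
      tendsto_const_nhds.add ((hmlt.const_div_atTop _).sub (loglog_div.const_mul _))
    have h2 : (1 : ℝ) + (0 - (k + 1) * 0) = 1 := by ring
    rw [h2] at h1
    refine h1.congr' ?_
    filter_upwards [hlt.eventually_ge_atTop 1] with N hN
    have : (Real.log N) ≠ 0 := by positivity
    rw [hAdef]
    field_simp
  have hB1 : Tendsto (fun N => B N / (m * Real.log N)) atTop (𝓝 1) := by
    have h1 : Tendsto (fun N : ℕ => 1 + (Real.log M + m * Real.log 2) / (m * Real.log N)) atTop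
        (𝓝 (1 + 0)) := tendsto_const_nhds.add (hmlt.const_div_atTop _)
    rw [add_zero] at h1
    refine h1.congr' ?_
    filter_upwards [hlt.eventually_ge_atTop 1] with N hN
    have : (Real.log N) ≠ 0 := by positivity
    rw [hBdef]
    field_simp
  have hG := tend_desc k l L (fun N => m * Real.log N) hmlt hL
  have hCl : Tendsto (fun N : ℕ => C / Real.log N) atTop (𝓝 0) := hlt.const_div_atTop _
  -- the two bounds
  have hlow : Tendsto (fun N : ℕ => (((L N).descFactorial k : ℕ) : ℝ) / (m * Real.log N) ^ k *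
      ((1 - C / Real.log N) / (B N / (m * Real.log N)) ^ k)) atTop (𝓝 (l ^ k * ((1 - 0) / 1 ^ k))) :=
    hG.mul ((tendsto_const_nhds.sub hCl).div (hB1.pow k) (by simp))
  have hupp : Tendsto (fun N : ℕ => (((L N).descFactorial k : ℕ) : ℝ) / (m * Real.log N) ^ k *
      ((m ^ k * (1 / Real.log N + (Real.log N) ^ k / N)) +
        (1 + C / Real.log N) / (A N / (m * Real.log N)) ^ k)) atTop
        (𝓝 (l ^ k * ((m ^ k * (0 + 0)) + (1 + 0) / 1 ^ k))) :=
    hG.mul (((((hlt.const_div_atTop 1).add (log_pow_div k)).const_mul _)).add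
      ((tendsto_const_nhds.add hCl).div (hA1.pow k) (by simp)))
  have e1 : l ^ k * ((1 - 0) / 1 ^ k) = l ^ k := by simp
  have e2 : l ^ k * (((m : ℝ) ^ k * (0 + 0)) + (1 + 0) / 1 ^ k) = l ^ k := by simp
  rw [e1] at hlow
  rw [e2] at hupp
  -- eventual facts
  have f1 : ∀ᶠ N : ℕ in atTop, (L N : ℝ) ≤ (Real.log N) ^ 2 := by
    have g1 := hL.eventually (gt_mem_nhds (show l < |l| + 1 by linarith [le_abs_self l]))
    filter_upwards [g1, hlt.eventually_ge_atTop ((|l| + 1) * m), hlt.eventually_ge_atTop 1] with N h1 h2 h3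
    have h4 : 0 < m * Real.log N := by positivity
    rw [div_lt_iff₀ h4] at h1
    nlinarith
  have f2 : ∀ᶠ N : ℕ in atTop, (Real.log N) ^ 2 ≤ N := by
    filter_upwards [(log_pow_div 2).eventually (gt_mem_nhds one_pos), eventually_ge_atTop 1] with N h1 h2
    have h3 : (0 : ℝ) < N := by exact_mod_cast h2
    rw [div_lt_one h3] at h1
    exact h1.le
  have f3 : ∀ᶠ N : ℕ in atTop, (x₀ : ℝ) ≤ (N : ℝ) / (Real.log N) ^ (k + 1) ∧
      2 ≤ δ * ((N : ℝ) / (Real.log N) ^ (k + 1)) ^ m := by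
    filter_upwards [(y_tend (k + 1)).eventually_ge_atTop (x₀ : ℝ),
      (y_tend (k + 1)).eventually_ge_atTop (2 / δ), (y_tend (k + 1)).eventually_ge_atTop 1] with N h1 h2 h3
    refine ⟨h1, ?_⟩
    have h4 : (N : ℝ) / (Real.log N) ^ (k + 1) ≤ ((N : ℝ) / (Real.log N) ^ (k + 1)) ^ m :=
      le_self_pow₀ h3 (by omega)
    rw [div_le_iff₀ hδ] at h2
    nlinarith
  have f4 : ∀ᶠ N : ℕ in atTop, 0 < A N := by
    filter_upwards [hA1.eventually (lt_mem_nhds (show (0 : ℝ) < 1 by norm_num)),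
      hlt.eventually_ge_atTop 1] with N h1 h2
    have h3 : 0 < m * Real.log N := by positivity
    by_contra hcon
    exact absurd h1 (not_lt.2 (div_nonpos_of_nonpos_of_nonneg (not_lt.1 hcon) h3.le))
  have f5 : ∀ᶠ N : ℕ in atTop, 0 < B N := by
    filter_upwards [hB1.eventually (lt_mem_nhds (show (0 : ℝ) < 1 by norm_num)),
      hlt.eventually_ge_atTop 1] with N h1 h2
    have h3 : 0 < m * Real.log N := by positivity
    by_contra hcon
    exact absurd h1 (not_lt.2 (div_nonpos_of_nonpos_of_nonneg (not_lt.1 hcon) h3.le))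
  have key : ∀ᶠ N : ℕ in atTop,
      (((L N).descFactorial k : ℕ) : ℝ) / (m * Real.log N) ^ k *
        ((1 - C / Real.log N) / (B N / (m * Real.log N)) ^ k) ≤
      (∑ n ∈ range N, ((((Icc 1 (L N)).filter (fun i => (⌊val ω (n + i)⌋₊).Prime)).card.descFactorial k : ℕ) : ℝ)) / N ∧
      (∑ n ∈ range N, ((((Icc 1 (L N)).filter (fun i => (⌊val ω (n + i)⌋₊).Prime)).card.descFactorial k : ℕ) : ℝ)) / N ≤
      (((L N).descFactorial k : ℕ) : ℝ) / (m * Real.log N) ^ k *
      ((m ^ k * (1 / Real.log N + (Real.log N) ^ k / N)) +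
        (1 + C / Real.log N) / (A N / (m * Real.log N)) ^ k) := by
    filter_upwards [f1, f2, f3, f4, f5, hlt.eventually_ge_atTop 1, eventually_ge_atTop 2] with N
      g1 g2 g3 g4 g5 g6 g7
    obtain ⟨g3, g3'⟩ := g3
    have hN0 : (0 : ℝ) < N := by
      have : (2 : ℝ) ≤ N := by exact_mod_cast g7
      linarith
    have hl0 : 0 < Real.log N := by linarith
    set y := (N : ℝ) / (Real.log N) ^ (k + 1) with hy
    have hy0 : 0 < y := by positivity
    have hAe : Real.log (δ / 2 * y ^ m) = A N := by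
      have hle : Real.log y = Real.log N - (k + 1) * Real.log (Real.log N) := by
        rw [hy, Real.log_div (by positivity) (by positivity), Real.log_pow]
        push_cast
        ring
      rw [Real.log_mul (by positivity) (by positivity), Real.log_pow, hle, hAdef]
      ring
    have hBe : Real.log (M * (2 * (N : ℝ)) ^ m) = B N := by
      rw [Real.log_mul (by positivity) (by positivity), Real.log_pow,
        Real.log_mul (by norm_num) (by positivity), hBdef]
      ring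
    have hone := one_N ω k N (L N) (A N) (B N) y C (Real.log N) g4 g5 hy0.le
      (by
        intro n hn i hi
        rw [Finset.mem_Icc] at hi
        unfold th ind
        split_ifs with hp
        · rw [mul_one, ← hBe]
          have h1 : (2 : ℝ) ≤ ((⌊val ω (n + i)⌋₊ : ℕ) : ℝ) := by exact_mod_cast hp.two_le
          have hpos : 0 ≤ val ω (n + i) := by
            by_contra hcon
            rw [Nat.floor_of_nonpos (not_le.1 hcon).le] at h1
            norm_num at h1
          have h2 : ((⌊val ω (n + i)⌋₊ : ℕ) : ℝ) ≤ val ω (n + i) := Nat.floor_le hpos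
          have h3 := hMu (n + i) (by omega)
          have h4 : ((n + i : ℕ) : ℝ) ≤ 2 * N := by
            have h5 : (i : ℝ) ≤ N := by
              have : (i : ℝ) ≤ L N := by exact_mod_cast hi.2
              linarith
            have h6 : (n : ℝ) ≤ N := by exact_mod_cast hn.le
            push_cast
            linarith
          have h5 : ((n + i : ℕ) : ℝ) ^ m ≤ (2 * (N : ℝ)) ^ m := pow_le_pow_left₀ (by positivity) h4 m
          refine Real.log_le_log (by linarith) ?_
          calc ((⌊val ω (n + i)⌋₊ : ℕ) : ℝ) ≤ val ω (n + i) := h2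
            _ ≤ M * ((n + i : ℕ) : ℝ) ^ m := h3
            _ ≤ M * (2 * (N : ℝ)) ^ m := mul_le_mul_of_nonneg_left h5 (by linarith)
        · simp)
      (by
        intro n hn hn1 i hi
        rw [Finset.mem_Icc] at hi
        unfold th ind
        split_ifs with hp
        · rw [mul_one, ← hAe]
          have h4 : y ≤ ((n + i : ℕ) : ℝ) := by
            push_cast
            have : (0 : ℝ) ≤ i := by positivity
            linarith
          have h3 := hx₀ (n + i) (by
            have : (x₀ : ℝ) ≤ ((n + i : ℕ) : ℝ) := g3.trans h4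
            exact_mod_cast this)
          have h5 : y ^ m ≤ ((n + i : ℕ) : ℝ) ^ m := pow_le_pow_left₀ hy0.le h4 m
          have h6 : δ * y ^ m ≤ val ω (n + i) :=
            (mul_le_mul_of_nonneg_left h5 hδ.le).trans h3
          have h7 := Nat.sub_one_lt_floor (val ω (n + i))
          refine Real.log_le_log (by positivity) ?_
          linarith
        · simp)
      (by
        intro s hs1 hs2
        have := hC N g7 s ⟨hs1, fun i => by
          have h1 : (s i : ℝ) ≤ L N := by exact_mod_cast (Finset.mem_Icc.1 (hs2 i)).2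
          linarith⟩
        rwa [pow_one] at this)
    obtain ⟨ho1, ho2⟩ := hone
    have hmk : (0 : ℝ) < (m * Real.log N) ^ k := by positivity
    constructor
    · rw [le_div_iff₀ hN0]
      refine le_trans (le_of_eq ?_) ho1
      rw [div_pow]
      have : B N ≠ 0 := g5.ne'
      field_simp
    · rw [div_le_iff₀ hN0]
      refine ho2.trans (le_of_eq ?_)
      rw [div_pow, hy, mul_pow, pow_succ]
      have : A N ≠ 0 := g4.ne'
      have : (Real.log N) ≠ 0 := hl0.ne'
      field_simp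
  exact tendsto_of_tendsto_of_tendsto_of_le_of_le' hlow hupp (key.mono fun N h => h.1)
    (key.mono fun N h => h.2)

end TN8

end Pool.Agent.helper616_TN
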