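import Pool.Agent.helper616_TN.VarLam
import Pool.Agent.helper616_TN.TN3
import Pool.Agent.helper616_TN.TN4
import Pool.Agent.helper616_TN.TN6
import Pool.Agent.helper616_TN.TN7
import Pool.Agent.helper616_TN.TN8
import Pool.Agent.helper616_TM.Main1

/-!
# Project TN (helper616): shifts up to a power of the logarithm
-/

set_option autoImplicit false

open Finset MeasureTheory Filter Topology
open Pool.Agent.helper616_RP (th)
open Pool.Agent.helper616_TS (LogBdd)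
open Pool.Agent.helper616_TM (val Q nodes)

namespace Pool.Agent.helper616_TN

theorem logBdd_th : LogBdd th := by
  refine ⟨1, 1, fun n => ?_⟩
  rw [one_mul, pow_one]
  have h0 : 0 ≤ Real.log ((n : ℝ) + 2) := Real.log_nonneg (by have : (0 : ℝ) ≤ n := n.cast_nonneg; linarith)
  unfold Pool.Agent.helper616_RP.th
  split_ifs with h
  · rw [abs_of_nonneg (Real.log_natCast_nonneg n)]
    refine Real.log_le_log (by exact_mod_cast h.pos) (by linarith)
  · simpa using h0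

/-- from mean squares on the cubes to almost all polynomials -/
theorem general (m k : ℕ) (b : Fin k → ℕ → ℝ) (hb : ∀ i, LogBdd (b i)) (κ : ℝ)
    (hp : ∀ c : Fin (m + 1) → ℝ, 0 < c (Fin.last m) → ∀ E D A : ℕ, ∃ C : ℝ, ∀ᶠ R : ℕ in atTop, ∀ s : Fin k → ℕ, Sh E R s →
      ∀ p q : ℕ, Far D R p q → |∫ ω in Q c, (tupB b s p ω - κ) * (tupB b s q ω - κ)| ≤ C / (Real.log R) ^ A) :
    ∀ᵐ ω : Fin (m + 1) → ℝ, 0 < ω (Fin.last m) → ∀ E A : ℕ, ∃ C : ℝ, ∀ R : ℕ, 2 ≤ R → ∀ s : Fin k → ℕ, Sh E R s →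
      |∑ n ∈ range R, (tupB b s n ω - κ)| ≤ C * R / (Real.log R) ^ A := by
  refine Pool.Agent.helper616_TM.TM11.ae_cubes _ fun c hc => ?_
  have := Pool.Agent.helper616_TM.prob c
  obtain ⟨hmeas, K, hK⟩ := TN5.boundU k c b hb
  refine TN7.aeU (volume.restrict (Q c)) k (fun s n ω => tupB b s n ω - κ) (fun s n => (hmeas s n).sub_const κ) K ?_
    (fun E A => TN6.msU k c b hb κ (hp c hc) E A)
  intro E
  obtain ⟨C, hC⟩ := hK E
  refine ⟨C + |κ|, fun R n hn s hs => ?_⟩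
  have hQ : MeasurableSet (Q c) := measurableSet_Icc
  rw [ae_restrict_iff' hQ]
  refine Eventually.of_forall fun ω hω => ?_
  have h1 := hC R n hn s hs ω hω
  have hR : (1 : ℝ) ≤ R := by exact_mod_cast (by omega : 1 ≤ R)
  have hlog : 1 ≤ Real.log ((R : ℝ) + 2) := by
    rw [Real.le_log_iff_exp_le (by linarith)]
    linarith [Real.exp_one_lt_d9]
  have h2 : (1 : ℝ) ≤ (Real.log ((R : ℝ) + 2)) ^ K := one_le_pow₀ hlog
  calc |tupB b s n ω - κ| ≤ |tupB b s n ω| + |κ| := abs_sub _ _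
    _ ≤ C * (Real.log (R + 2)) ^ K + |κ| * (Real.log (R + 2)) ^ K := by
        have := mul_le_mul_of_nonneg_left h2 (abs_nonneg κ)
        linarith
    _ = (C + |κ|) * (Real.log (R + 2)) ^ K := by ring

/-- the primes -/
theorem primes (m k : ℕ) (hk : 1 ≤ k) (hmk : 9 * k < 2 * m + 6) :
    ∀ᵐ ω : Fin (m + 1) → ℝ, 0 < ω (Fin.last m) → ∀ E A : ℕ, ∃ C : ℝ, ∀ R : ℕ, 2 ≤ R → ∀ s : Fin k → ℕ, Sh E R s →
      |∑ n ∈ range R, (tupB (fun _ => th) s n ω - 1)| ≤ C * R / (Real.log R) ^ A :=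
  general m k (fun _ => th) (fun _ => logBdd_th) 1 fun c hc E D A =>
    TN3.coreU k (m + 1 - (k + k)) m hk (by omega) (by omega) c hc var_th E D A

/-- functions with mean value zero -/
theorem zero (m k : ℕ) (hmk : 9 * k < 2 * m + 6) (b : Fin k → ℕ → ℝ) (hb : ∀ i, LogBdd (b i)) (i₀ : Fin k)
    (hv : Var13 (b i₀)) :
    ∀ᵐ ω : Fin (m + 1) → ℝ, 0 < ω (Fin.last m) → ∀ E A : ℕ, ∃ C : ℝ, ∀ R : ℕ, 2 ≤ R → ∀ s : Fin k → ℕ, Sh E R s →
      |∑ n ∈ range R, tupB b s n ω| ≤ C * R / (Real.log R) ^ A := by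
  have hk : 1 ≤ k := by have := i₀.2; omega
  have h := general m k b hb 0 fun c hc E D A =>
    TN4.pairB k (m + 1 - (k + k)) m hk (by omega) (by omega) c hc b hb i₀ hv E D A
  simpa only [sub_zero] using h

/-- the factorial moments -/
theorem moments (m : ℕ) :
    ∀ᵐ ω : Fin (m + 1) → ℝ, 0 < ω (Fin.last m) → ∀ k : ℕ, 1 ≤ k → 9 * k < 2 * m + 6 → ∀ (l : ℝ) (L : ℕ → ℕ),
      Tendsto (fun N : ℕ => (L N : ℝ) / (m * Real.log N)) atTop (𝓝 l) →
      Tendsto (fun N : ℕ => (∑ n ∈ range N, ((((Icc 1 (L N)).filter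
        (fun i => (⌊val ω (n + i)⌋₊).Prime)).card.descFactorial k : ℕ) : ℝ)) / N) atTop (𝓝 (l ^ k)) := by
  have h : ∀ k : ℕ, ∀ᵐ ω : Fin (m + 1) → ℝ, 1 ≤ k → 9 * k < 2 * m + 6 → 0 < ω (Fin.last m) → ∀ E A : ℕ, ∃ C : ℝ,
      ∀ R : ℕ, 2 ≤ R → ∀ s : Fin k → ℕ, Sh E R s →
      |∑ n ∈ range R, (tupB (fun _ => th) s n ω - 1)| ≤ C * R / (Real.log R) ^ A := by
    intro k
    by_cases hk : 1 ≤ k ∧ 9 * k < 2 * m + 6
    · filter_upwards [primes m k hk.1 hk.2] with ω hω _ _ h0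
      exact hω h0
    · refine Eventually.of_forall fun ω h1 h2 => absurd ⟨h1, h2⟩ hk
  rw [← ae_all_iff] at h
  filter_upwards [h] with ω hω h0 k hk hmk l L hL
  exact TN8.poisson (by omega) ω h0 k (hω k hk hmk h0) l L hL

end Pool.Agent.helper616_TN
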