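import Pool.Agent.helper616_TN.Main1
import Pool.Agent.TP975.RP.Mx7

/-!
# Project TN (helper616): the law of the number of prime values in windows
-/

set_option autoImplicit false

open Finset MeasureTheory Filter Topology
open Pool.Agent.helper616_TM (val Q nodes)

namespace Pool.Agent.helper616_TN

/-- from factorial moments to frequencies -/
theorem freq_of_moments (X : ℕ → ℕ → ℕ) (l : ℝ) (hl : 0 ≤ l) (j r : ℕ) (hr : 1 ≤ r)
    (hmom : ∀ k, k ≤ j + r → Tendsto (fun N : ℕ => (∑ n ∈ range N, (((X N n).descFactorial k : ℕ) : ℝ)) / N) atTop (𝓝 (l ^ k)))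
    (ε : ℝ) (hε : 0 < ε) :
    ∀ᶠ N : ℕ in atTop, |(((range N).filter (fun n => X N n = j)).card : ℝ) / N - Real.exp (-l) * l ^ j / (j.factorial : ℝ)| ≤
      2 * (l ^ (j + r) / ((j.factorial : ℝ) * r.factorial)) + ε := by
  classical
  set M : ℕ → ℕ → ℝ := fun k N => (∑ n ∈ range N, (((X N n).descFactorial k : ℕ) : ℝ)) / N with hM
  set S : ℕ → ℝ := fun N => ∑ i ∈ range r, (-1) ^ i * M (j + i) N / ((j.factorial : ℝ) * i.factorial) with hS
  have h1 : ∀ N : ℕ, |(((range N).filter (fun n => X N n = j)).card : ℝ) / N - S N| ≤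
      M (j + r) N / ((j.factorial : ℝ) * r.factorial) := by
    intro N
    have e1 : (((range N).filter (fun n => X N n = j)).card : ℝ) = ∑ n ∈ range N, (if X N n = j then (1 : ℝ) else 0) := by
      rw [card_filter]
      push_cast
      rfl
    have e2 : (((range N).filter (fun n => X N n = j)).card : ℝ) / N - S N = (∑ n ∈ range N, ((if X N n = j then (1 : ℝ) else 0) -
        ∑ i ∈ range r, (-1) ^ i * (((X N n).descFactorial (j + i) : ℕ) : ℝ) / ((j.factorial : ℝ) * i.factorial))) / N := by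
      rw [e1, sum_sub_distrib, sub_div]
      congr 1
      rw [hS, hM, sum_comm, sum_div]
      refine sum_congr rfl fun i _ => ?_
      rw [← sum_div, ← mul_sum]
      ring
    rw [e2, abs_div, Nat.abs_cast]
    have e3 : M (j + r) N / ((j.factorial : ℝ) * r.factorial) =
        (∑ n ∈ range N, (((X N n).descFactorial (j + r) : ℕ) : ℝ) / ((j.factorial : ℝ) * r.factorial)) / N := by
      rw [hM, ← sum_div]
      ring
    rw [e3]
    refine div_le_div_of_nonneg_right ?_ (Nat.cast_nonneg N)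
    refine (abs_sum_le_sum_abs _ _).trans (sum_le_sum fun n _ => ?_)
    exact Pool.Agent.TP975.RP.cnt_bonf (X N n) j r hr
  have h2 : Tendsto S atTop (𝓝 (∑ i ∈ range r, (-1) ^ i * l ^ (j + i) / ((j.factorial : ℝ) * i.factorial))) := by
    refine tendsto_finsetSum _ fun i hi => ?_
    refine Tendsto.div_const ?_ _
    exact (hmom (j + i) (by have := mem_range.1 hi; omega)).const_mul _
  have h3 : Tendsto (fun N => M (j + r) N / ((j.factorial : ℝ) * r.factorial)) atTop
      (𝓝 (l ^ (j + r) / ((j.factorial : ℝ) * r.factorial))) := (hmom (j + r) le_rfl).div_const _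
  have h4 := Pool.Agent.TP975.RP.poi_bonf j r l hl
  have h5 := (Metric.tendsto_nhds.1 h2) (ε / 2) (by positivity)
  have h6 := (Metric.tendsto_nhds.1 h3) (ε / 2) (by positivity)
  filter_upwards [h5, h6] with N h5 h6
  rw [Real.dist_eq] at h5 h6
  have h7 := h1 N
  rw [abs_le] at h7 h4 ⊢
  rw [abs_lt] at h5 h6
  constructor <;> linarith [h7.1, h7.2, h4.1, h4.2, h5.1, h5.2, h6.1, h6.2]

/-- correlations and frequencies -/
theorem windows (m : ℕ) :
    ∀ᵐ ω : Fin (m + 1) → ℝ, 0 < ω (Fin.last m) →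
      (∀ k : ℕ, 1 ≤ k → 9 * k < 2 * m + 6 → ∀ E A : ℕ, ∃ C : ℝ, ∀ R : ℕ, 2 ≤ R → ∀ s : Fin k → ℕ, Sh E R s →
        |∑ n ∈ range R, (tupB (fun _ => Pool.Agent.helper616_RP.th) s n ω - 1)| ≤ C * R / (Real.log R) ^ A) ∧
      (∀ (l : ℝ) (L : ℕ → ℕ), Tendsto (fun N : ℕ => (L N : ℝ) / (m * Real.log N)) atTop (𝓝 l) →
        ∀ j r : ℕ, 1 ≤ r → 9 * (j + r) < 2 * m + 6 → ∀ ε : ℝ, 0 < ε → ∀ᶠ N : ℕ in atTop,
        |(((range N).filter (fun n => ((Icc 1 (L N)).filter (fun i => (⌊val ω (n + i)⌋₊).Prime)).card = j)).card : ℝ) / N -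
          Real.exp (-l) * l ^ j / (j.factorial : ℝ)| ≤ 2 * (l ^ (j + r) / ((j.factorial : ℝ) * r.factorial)) + ε) := by
  have h : ∀ k : ℕ, ∀ᵐ ω : Fin (m + 1) → ℝ, 1 ≤ k → 9 * k < 2 * m + 6 → 0 < ω (Fin.last m) → ∀ E A : ℕ, ∃ C : ℝ,
      ∀ R : ℕ, 2 ≤ R → ∀ s : Fin k → ℕ, Sh E R s →
      |∑ n ∈ range R, (tupB (fun _ => Pool.Agent.helper616_RP.th) s n ω - 1)| ≤ C * R / (Real.log R) ^ A := by
    intro k
    by_cases hk : 1 ≤ k ∧ 9 * k < 2 * m + 6
    · filter_upwards [primes m k hk.1 hk.2] with ω hω _ _ h0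
      exact hω h0
    · refine Eventually.of_forall fun ω h1 h2 => absurd ⟨h1, h2⟩ hk
  rw [← ae_all_iff] at h
  filter_upwards [h] with ω hω h0
  refine ⟨fun k h1 h2 => hω k h1 h2 h0, fun l L hL j r hr hjr ε hε => ?_⟩
  have hl : 0 ≤ l := by
    refine ge_of_tendsto hL ?_
    filter_upwards [eventually_ge_atTop 1] with N hN
    have : 0 ≤ Real.log N := Real.log_natCast_nonneg N
    positivity
  refine freq_of_moments (fun N n => ((Icc 1 (L N)).filter (fun i => (⌊val ω (n + i)⌋₊).Prime)).card) l hl j r hr ?_ ε hε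
  intro k hk
  rcases Nat.eq_zero_or_pos k with h | h
  · subst h
    simp only [Nat.descFactorial_zero, Nat.cast_one, sum_const, card_range, nsmul_eq_mul, mul_one, pow_zero]
    refine (tendsto_const_nhds).congr' ?_
    filter_upwards [eventually_ge_atTop 1] with N hN
    have : (N : ℝ) ≠ 0 := by exact_mod_cast (by omega : N ≠ 0)
    exact (div_self this).symm
  · exact TN8.poisson (by omega) ω h0 k (hω k h (by omega) h0) l L hL

end Pool.Agent.helper616_TN
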