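import Pool.Agent.helper616_RP.Dep
import Pool.Agent.helper616_RP.J1
import Pool.Agent.helper616_RP.Var
import Pool.Agent.helper24_UT.Frm13
import Pool.Agent.helper24_UT.Silm13
import Pool.Agent.helper24_UT.Sim13
import Pool.Agent.helper616_TN.Defs

/-!
# Project TN (helper616): the functions of Liouville and Moebius in almost all intervals of length `X ^ (1 / 3 + ε)`
-/

set_option autoImplicit false

open Finset

namespace Pool.Agent.helper616_TN

open Pool.Agent.helper24_UT in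
theorem t_SILM13 : S_SILM13 := Silm13.main Win.main (Frm13.main Pool.Agent.helper616_RP.t_FRL13)

open Pool.Agent.helper24_UT in
theorem t_SIM13 : S_SIM13 := Sim13.main t_SILM13

/-- the function of Liouville -/
noncomputable def lam (n : ℕ) : ℝ := (-1) ^ (ArithmeticFunction.cardFactors n)

theorem exists_e (θ : ℝ) (hθ : 1 / 3 < θ) : ∃ e : ℕ, 4 ≤ e ∧ ∀ X : ℕ, 1 ≤ X → ∀ W : ℕ, (X : ℝ) ^ θ ≤ W →
    (X : ℝ) ^ (1 / 3 + 2 / (e : ℝ) : ℝ) ≤ W := by
  obtain ⟨e, he⟩ := exists_nat_gt (2 / (θ - 1 / 3))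
  have hθ' : 0 < θ - 1 / 3 := by linarith
  refine ⟨max e 4, le_max_right _ _, fun X hX W hW => ?_⟩
  have he0 : (0 : ℝ) < (max e 4 : ℕ) := by
    have : 0 < max e 4 := lt_of_lt_of_le (by norm_num) (le_max_right e 4)
    exact_mod_cast this
  have he1 : 2 / ((max e 4 : ℕ) : ℝ) ≤ θ - 1 / 3 := by
    rw [div_le_iff₀ he0]
    have h1 : (e : ℝ) ≤ (max e 4 : ℕ) := by exact_mod_cast le_max_left e 4
    have h2 : 2 / (θ - 1 / 3) ≤ ((max e 4 : ℕ) : ℝ) := by linarith
    rw [div_le_iff₀ hθ'] at h2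
    linarith
  have hX1 : (1 : ℝ) ≤ X := by exact_mod_cast hX
  exact (Real.rpow_le_rpow_of_exponent_le hX1 (by linarith)).trans hW

theorem var_mu : Var13 (fun n => ((ArithmeticFunction.moebius n : ℤ) : ℝ)) := by
  intro θ hθ A
  obtain ⟨e, he4, he⟩ := exists_e θ hθ
  obtain ⟨X₀, hX⟩ := t_SILM13 e A 1 he4
  refine ⟨max X₀ 3, fun X hX0 W hW1 hW2 => ?_⟩
  have h3 : 3 ≤ X := le_trans (le_max_right _ _) hX0
  have h3' : (3 : ℝ) ≤ X := by exact_mod_cast h3
  have hlog : (1 : ℝ) ≤ Real.log X := by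
    rw [Real.le_log_iff_exp_le (by linarith)]
    linarith [Real.exp_one_lt_d9]
  have h := hX X (le_trans (le_max_left _ _) hX0) 1 0 le_rfl (by simpa using hlog) (by simp) W (he X (by omega) W hW1) hW2
  refine le_trans (le_of_eq ?_) h
  refine sum_congr rfl fun u _ => ?_
  rw [Pool.Agent.helper616_RP.J1.sum_shift (fun n => ((ArithmeticFunction.moebius n : ℤ) : ℝ)) u W]
  have h1 : (Ioc u (u + W)).filter (fun n => n % 1 = 0 % 1) = Ioc u (u + W) :=
    filter_true_of_mem fun n _ => by omega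
  rw [h1]
  have h2 : ∑ n ∈ Ioc u (u + W), Pool.Agent.helper24_UT.muc n =
      ((∑ n ∈ Ioc u (u + W), ((ArithmeticFunction.moebius n : ℤ) : ℝ) : ℝ) : ℂ) := by
    push_cast
    rfl
  rw [h2, Complex.norm_real, Real.norm_eq_abs, sq_abs]

theorem var_lam : Var13 lam := by
  intro θ hθ A
  obtain ⟨e, he4, he⟩ := exists_e θ hθ
  obtain ⟨X₀, hX⟩ := t_SIM13 e A 1 he4
  refine ⟨max X₀ 3, fun X hX0 W hW1 hW2 => ?_⟩
  have h3 : 3 ≤ X := le_trans (le_max_right _ _) hX0
  have h3' : (3 : ℝ) ≤ X := by exact_mod_cast h3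
  have hlog : (1 : ℝ) ≤ Real.log X := by
    rw [Real.le_log_iff_exp_le (by linarith)]
    linarith [Real.exp_one_lt_d9]
  have h := hX X (le_trans (le_max_left _ _) hX0) 1 le_rfl (by simpa using hlog) W (he X (by omega) W hW1) hW2
  refine le_trans (le_of_eq ?_) h
  refine sum_congr rfl fun u _ => ?_
  rw [Pool.Agent.helper616_RP.J1.sum_shift lam u W]
  unfold Pool.Agent.helper24_UT.NN
  rw [range_one, sum_singleton]
  have h1 : (Ioc (u : ℤ) ((u : ℤ) + W)).filter (fun m => m % ((1 : ℕ) : ℤ) = ((0 : ℕ) : ℤ)) = Ioc (u : ℤ) (u + W) :=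
    filter_true_of_mem fun n _ => by simp
  rw [h1]
  congr 1
  refine sum_bij (fun n _ => (n : ℤ)) (fun n hn => ?_) (fun a _ b _ hab => by exact_mod_cast hab) (fun m hm => ?_) (fun n hn => ?_)
  · rw [mem_Ioc] at hn ⊢
    constructor
    · exact_mod_cast hn.1
    · exact_mod_cast hn.2
  · rw [mem_Ioc] at hm
    refine ⟨m.toNat, ?_, ?_⟩
    · rw [mem_Ioc]; omega
    · omega
  · rw [mem_Ioc] at hn
    unfold lam Pool.Agent.helper24_UT.liI
    rw [if_pos (by exact_mod_cast (by omega : 1 ≤ n)), Int.toNat_natCast]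

theorem var_th : Var13 (fun n => Pool.Agent.helper616_RP.th n - 1) := Pool.Agent.helper616_RP.t_VAR

end Pool.Agent.helper616_TN
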